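import Pool.Agent.Q222.VG.Inst

/-!
# Vertex growth: codes and undecidability
-/

set_option autoImplicit false
set_option linter.unusedSectionVars false

namespace Q222.VG

open Matrix Kronecker Set Pointwise Filter

/-! ### Polynomial vertex growth -/

/-- the states reachable in `k` steps -/
def reach {ι : Type} [Fintype ι] (S : Set (Matrix ι ι ℝ)) (a : ι → ℝ) : ℕ → Set (ι → ℝ)
  | 0 => {a}
  | k + 1 => {y | ∃ T ∈ S, ∃ x ∈ reach S a k, y = T *ᵥ x}

/-- polynomial vertex growth -/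
def PolyGrowth {ι : Type} [Fintype ι] (S : Set (Matrix ι ι ℝ)) : Prop :=
  ∃ α d : ℝ, 0 < α ∧ 0 < d ∧ ∃ k₀ : ℕ, 0 < k₀ ∧ ∀ k, k₀ ≤ k → ∀ a : ι → ℝ,
    (((convexHull ℝ (reach S a k)).extremePoints ℝ).ncard : ℝ) ≤ α * (k : ℝ) ^ d

section
variable {ι : Type} [Fintype ι] [DecidableEq ι]

theorem reach_eq (S : Set (Matrix ι ι ℝ)) (a : ι → ℝ) (k : ℕ) :
    reach S a k = (fun M => M *ᵥ a) '' S ^ k := by
  induction k with
  | zero =>
    rw [pow_zero, Set.image_one, one_mulVec]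
    rfl
  | succ k ih =>
    rw [pow_succ']
    ext y
    constructor
    · rintro ⟨T, hT, x, hx, rfl⟩
      rw [ih] at hx
      obtain ⟨M, hM, rfl⟩ := hx
      exact ⟨T * M, mul_mem_mul hT hM, by simp⟩
    · rintro ⟨_, ⟨T, hT, M, hM, rfl⟩, rfl⟩
      refine ⟨T, hT, M *ᵥ a, ?_, by simp⟩
      rw [ih]
      exact ⟨M, hM, rfl⟩

theorem polyGrowth_of {S : Set (Matrix ι ι ℝ)} {C d : ℕ} (h : ∀ k, 1 ≤ k →
    ∃ Y : Set (Matrix ι ι ℝ), Y.Finite ∧ Y.ncard ≤ C * k ^ d ∧ Y ⊆ S ^ k ∧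
      S ^ k ⊆ convexHull ℝ Y) : PolyGrowth S := by
  refine ⟨C + 1, d + 1, by positivity, by positivity, 1, one_pos, fun k hk a => ?_⟩
  obtain ⟨Y, hfin, hcard, h1, h2⟩ := h k hk
  let ev : Matrix ι ι ℝ →ₗ[ℝ] (ι → ℝ) :=
    { toFun := fun M => M *ᵥ a
      map_add' := fun M N => add_mulVec M N a
      map_smul' := fun c M => smul_mulVec c M a }
  have h3 : convexHull ℝ (reach S a k) = convexHull ℝ (ev '' Y) := by
    rw [reach_eq]
    apply Set.Subset.antisymm
    · refine convexHull_min ?_ (convex_convexHull ℝ _)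
      rw [← LinearMap.image_convexHull]
      exact image_mono h2
    · exact convexHull_mono (image_mono h1)
  rw [h3]
  have h4 : ((convexHull ℝ (ev '' Y)).extremePoints ℝ).ncard ≤ C * k ^ d :=
    (ncard_le_ncard extremePoints_convexHull_subset (hfin.image _)).trans
      ((ncard_image_le hfin).trans hcard)
  have hk' : (1 : ℝ) ≤ k := by exact_mod_cast hk
  calc (((convexHull ℝ (ev '' Y)).extremePoints ℝ).ncard : ℝ) ≤ (C : ℝ) * (k : ℝ) ^ d := by
        exact_mod_cast h4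
    _ ≤ (C + 1) * (k : ℝ) ^ (d + 1) := by
        refine mul_le_mul (by linarith) (pow_le_pow_right₀ hk' (by omega)) (by positivity)
          (by positivity)
    _ = _ := by
        rw [← Real.rpow_natCast]
        push_cast
        rfl

theorem not_polyGrowth_of {S : Set (Matrix ι ι ℝ)} (a : ι → ℝ) (N : ℕ)
    (h : ∀ m, 2 ^ m ≤ ((convexHull ℝ (reach S a (m * (N + 2)))).extremePoints ℝ).ncard) :
    ¬ PolyGrowth S := by
  rintro ⟨α, d, hα, hd, k₀, hk₀, hb⟩
  set D := ⌈d⌉₊ with hD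
  have h1 := tendsto_pow_const_div_const_pow_of_one_lt D (r := (2 : ℝ)) one_lt_two
  have h2 : 0 < 1 / (α * ((N : ℝ) + 2) ^ D) := by positivity
  have h3 := h1.eventually (gt_mem_nhds h2)
  obtain ⟨m, hm, hm2⟩ := (h3.and (eventually_ge_atTop (k₀ + 1))).exists
  have hm1 : 1 ≤ m := by omega
  have hge : k₀ ≤ m * (N + 2) := by nlinarith
  have h4 := hb _ hge a
  have h5 : (2 : ℝ) ^ m ≤ α * ((m * (N + 2) : ℕ) : ℝ) ^ d := by
    refine le_trans ?_ h4
    exact_mod_cast h m
  have h6 : ((m * (N + 2) : ℕ) : ℝ) ^ d ≤ ((m * (N + 2) : ℕ) : ℝ) ^ D := by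
    rw [← Real.rpow_natCast]
    refine Real.rpow_le_rpow_of_exponent_le ?_ (Nat.le_ceil d)
    have : 1 ≤ m * (N + 2) := by nlinarith
    exact_mod_cast this
  have h7 : (2 : ℝ) ^ m ≤ α * ((m : ℝ) ^ D * ((N : ℝ) + 2) ^ D) := by
    refine h5.trans ?_
    rw [← mul_pow]
    push_cast at h6 ⊢
    exact mul_le_mul_of_nonneg_left h6 hα.le
  rw [div_lt_div_iff₀ (by positivity) (by positivity)] at hm
  nlinarith

theorem reach_reindex {ι' : Type} [Fintype ι'] (e : ι ≃ ι') (S : Set (Matrix ι ι ℝ))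
    (a : ι' → ℝ) (k : ℕ) :
    reach ((fun M => M.submatrix e.symm e.symm) '' S) a k =
      (LinearEquiv.funCongrLeft ℝ ℝ e.symm) '' reach S (a ∘ e) k := by
  induction k with
  | zero =>
    simp only [reach, image_singleton]
    congr 1
    funext i
    simp [LinearEquiv.funCongrLeft]
  | succ k ih =>
    ext y
    constructor
    · rintro ⟨_, ⟨T, hT, rfl⟩, x, hx, rfl⟩
      rw [ih] at hx
      obtain ⟨z, hz, rfl⟩ := hx
      refine ⟨T *ᵥ z, ⟨T, hT, z, hz, rfl⟩, ?_⟩
      rw [submatrix_mulVec_equiv]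
      have : (LinearEquiv.funCongrLeft ℝ ℝ e.symm) z ∘ e.symm.symm = z := by
        funext i
        simp [LinearEquiv.funCongrLeft]
      rw [this]
      rfl
    · rintro ⟨_, ⟨T, hT, z, hz, rfl⟩, rfl⟩
      refine ⟨_, ⟨T, hT, rfl⟩, (LinearEquiv.funCongrLeft ℝ ℝ e.symm) z, ?_, ?_⟩
      · rw [ih]
        exact ⟨z, hz, rfl⟩
      · rw [submatrix_mulVec_equiv]
        have : (LinearEquiv.funCongrLeft ℝ ℝ e.symm) z ∘ e.symm.symm = z := by
          funext i
          simp [LinearEquiv.funCongrLeft]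
        rw [this]
        rfl

theorem polyGrowth_reindex {ι' : Type} [Fintype ι'] (e : ι ≃ ι') (S : Set (Matrix ι ι ℝ)) :
    PolyGrowth ((fun M => M.submatrix e.symm e.symm) '' S) ↔ PolyGrowth S := by
  have key : ∀ (a : ι' → ℝ) k, ((convexHull ℝ (reach ((fun M => M.submatrix e.symm e.symm) '' S)
      a k)).extremePoints ℝ).ncard =
      ((convexHull ℝ (reach S (a ∘ e) k)).extremePoints ℝ).ncard := by
    intro a k
    rw [reach_reindex]
    have h1 := LinearMap.image_convexHull (LinearEquiv.funCongrLeft ℝ ℝ e.symm).toLinearMap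
      (reach S (a ∘ e) k)
    have h2 : (LinearEquiv.funCongrLeft ℝ ℝ e.symm) '' convexHull ℝ (reach S (a ∘ e) k) =
      convexHull ℝ ((LinearEquiv.funCongrLeft ℝ ℝ e.symm) '' reach S (a ∘ e) k) := h1
    rw [← h2, ← image_extremePoints]
    exact ncard_image_of_injective _ (LinearEquiv.injective _)
  constructor
  · rintro ⟨α, d, hα, hd, k₀, hk₀, h⟩
    refine ⟨α, d, hα, hd, k₀, hk₀, fun k hk a => ?_⟩
    have := h k hk (a ∘ e.symm)
    rw [key] at this
    have e1 : (a ∘ e.symm) ∘ e = a := by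
      funext i
      simp
    rwa [e1] at this
  · rintro ⟨α, d, hα, hd, k₀, hk₀, h⟩
    refine ⟨α, d, hα, hd, k₀, hk₀, fun k hk a => ?_⟩
    rw [key]
    exact h k hk _

end

/-! ### The letters -/

variable {r : Type} [Fintype r] [DecidableEq r]
variable {κ : Type} [Fintype κ] [DecidableEq κ]

/-- the matrix with rows `±e_j` or `0` -/
def Dq (q : Fin 3 → SignType × Fin 3) : Matrix (Fin 3) (Fin 3) ℝ :=
  of fun i => Pi.single (q i).2 ((q i).1 : ℝ)

theorem range_Dq : range Dq = Dm := by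
  apply Set.Subset.antisymm
  · rintro _ ⟨q, rfl⟩ i
    refine ⟨((q i).1 : ℝ), (q i).2, ?_, rfl⟩
    rcases (q i).1 with _ | _ | _
    · left; rfl
    · right; right; rfl
    · right; left; rfl
  · intro M hM
    have h1 : ∀ i, ∃ q : SignType × Fin 3, M i = Pi.single q.2 (q.1 : ℝ) := by
      intro i
      obtain ⟨s, j, hs, hj⟩ := hM i
      rcases hs with rfl | rfl | rfl
      · exact ⟨(0, j), by simpa using hj⟩
      · exact ⟨(1, j), by simpa using hj⟩
      · exact ⟨(-1, j), by simpa using hj⟩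
    choose q hq using h1
    exact ⟨q, funext fun i => (hq i).symm⟩

/-- the index set of the letters -/
abbrev Lam (r : Type) : Type := (Fin 3 → SignType × Fin 3) ⊕ Bool ⊕ r ⊕ Unit

/-- the first factor of a letter -/
def fX (M : (r → ℕ) → Matrix κ κ ℝ) (u φ : κ → ℝ) :
    Lam r → Matrix (Unit ⊕ κ) (Unit ⊕ κ) ℝ
  | .inl _ => η0
  | .inr (.inl _) => s0 u
  | .inr (.inr (.inl j)) => M0 M (Pi.single j 1)
  | .inr (.inr (.inr _)) => t0 φ

/-- the second factor of a letter -/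
noncomputable def fC : Lam r → Matrix (Fin 3) (Fin 3) ℝ
  | .inl q => Dq q
  | .inr (.inl b) => Cm (bv b)
  | .inr (.inr _) => 1

theorem range_letters (M : (r → ℕ) → Matrix κ κ ℝ) (u φ : κ → ℝ) (h0 : M 0 = 1)
    (h1 : ∀ m n, M m * M n = M (m + n)) :
    range (fun l : Lam r => fX M u φ l ⊗ₖ fC l) = (sys M u φ h0 h1).L := by
  apply Set.Subset.antisymm
  · rintro _ ⟨q | b | j | x, rfl⟩
    · refine Or.inl ⟨Dq q, by rw [← range_Dq]; exact ⟨q, rfl⟩, ?_⟩
      exact (emb_dl _ _).symm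
    · exact Or.inr (Or.inl ⟨b, (emb_dl _ _).symm⟩)
    · exact Or.inr (Or.inr (Or.inl ⟨j, rfl⟩))
    · exact Or.inr (Or.inr (Or.inr rfl))
  · rintro x (⟨g, hg, rfl⟩ | ⟨b, rfl⟩ | ⟨j, rfl⟩ | rfl)
    · rw [← range_Dq] at hg
      obtain ⟨q, rfl⟩ := hg
      exact ⟨.inl q, (emb_dl _ _).symm⟩
    · exact ⟨.inr (.inl b), (emb_dl _ _).symm⟩
    · exact ⟨.inr (.inr (.inl j)), rfl⟩
    · exact ⟨.inr (.inr (.inr ())), rfl⟩

theorem pr_fX {M : (r → ℕ) → Matrix κ κ ℝ} {u : ℕ → κ → ℝ} {φ : κ → ℝ}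
    (h2 : ∀ m i j, PR fun _ => M m i j) (h3 : ∀ i, PR fun a => u a i)
    (h4 : ∀ i, PR fun _ => φ i) (l : Lam r) (i j : Unit ⊕ κ) :
    PR fun a => fX M (u a) φ l i j := by
  rcases l with q | b | k | x <;> rcases i with i | i <;> rcases j with j | j
  · simpa [fX, η0] using PR.one
  · simpa [fX, η0] using PR.zero
  · simpa [fX, η0] using PR.zero
  · simpa [fX, η0] using PR.zero
  · simpa [fX, s0] using PR.zero
  · simpa [fX, s0] using PR.zero
  · simpa [fX, s0] using h3 i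
  · simpa [fX, s0] using PR.zero
  · simpa [fX, M0] using PR.zero
  · simpa [fX, M0] using PR.zero
  · simpa [fX, M0] using PR.zero
  · simpa [fX, M0] using h2 _ i j
  · simpa [fX, t0] using PR.zero
  · simpa [fX, t0] using h4 j
  · simpa [fX, t0] using PR.zero
  · simpa [fX, t0] using PR.zero

theorem pr_div (c : ℤ) (n : ℕ) : PR fun _ => (c : ℝ) / ((n : ℝ) + 1) := by
  have := (PR.int c).mul (PR.inv (Primrec.const n))
  refine this.congr fun a => ?_
  rw [mul_one_div]

theorem pr_fC (l : Lam r) (i j : Fin 3) : PR fun _ => fC l i j := by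
  rcases l with q | b | k
  · simp only [fC, Dq, of_apply, Pi.single_apply]
    split
    · rcases (q i).1 with _ | _ | _
      · exact PR.zero
      · simpa using PR.int (-1)
      · exact PR.one
    · exact PR.zero
  · have e0 : PR fun _ => (0 : ℝ) := PR.zero
    have e1 : PR fun _ => (1 : ℝ) := PR.one
    have e2 : PR fun _ => (1 / 2 : ℝ) := (pr_div 1 1).congr fun _ => by norm_num
    have e4 : PR fun _ => (1 / 4 : ℝ) := (pr_div 1 3).congr fun _ => by norm_num
    cases b <;> fin_cases i <;> fin_cases j <;> simp [fC, Cm, bv] <;>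
      first
        | exact e0
        | exact e1
        | simpa using e2
        | simpa using e4
  · simp only [fC, Matrix.one_apply]
    split
    · exact PR.one
    · exact PR.zero

/-! ### Codes -/

/-- the matrix with the code `m` -/
noncomputable def matOf (n : ℕ) (m : List (List (ℕ × ℕ × ℕ))) : Matrix (Fin n) (Fin n) ℝ :=
  of fun i j => val ((m.getD i []).getD j (0, 0, 0))

/-- the set of matrices with the code `l` -/
def mats (n : ℕ) (l : List (List (List (ℕ × ℕ × ℕ)))) : Set (Matrix (Fin n) (Fin n) ℝ) :=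
  {T | ∃ m ∈ l, T = matOf n m}

theorem ofFn_getD {α : Type} {n : ℕ} (f : Fin n → α) (i : Fin n) (d : α) :
    (List.ofFn f).getD i d = f i := by
  have h : (i : ℕ) < (List.ofFn f).length := by
    rw [List.length_ofFn]
    exact i.2
  rw [List.getD_eq_getElem _ _ h, List.getElem_ofFn]

theorem exists_codes : ∃ (Z : ℕ → Prop) (n L : ℕ) (c : ℕ → List (List (List (ℕ × ℕ × ℕ)))),
    ¬ ComputablePred Z ∧ REPred Z ∧ 1 ≤ n ∧ 1 ≤ L ∧ Primrec c ∧ (∀ a, (c a).length = L) ∧
      ∀ a, PolyGrowth (mats n (c a)) ↔ ¬ Z a := by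
  classical
  obtain ⟨Z, r, _, _, f, hZ, hZre, hrec, hno, hyes⟩ := exists_rep
  obtain ⟨κ, _, _, M, u, φ, h0, h1, h2, h3, h4, h5⟩ := hrec
  let e : (Unit ⊕ κ) × Fin 3 ≃ Fin (Fintype.card ((Unit ⊕ κ) × Fin 3)) := Fintype.equivFin _
  let e' : Lam r ≃ Fin (Fintype.card (Lam r)) := Fintype.equivFin _
  have hpr : ∀ (l : Lam r) (i j : (Unit ⊕ κ) × Fin 3),
      PR fun a => (fX M (u a) φ l ⊗ₖ fC l) i j := by
    rintro l ⟨i, i'⟩ ⟨j, j'⟩
    exact (pr_fX h2 h3 h4 l i j).mul (pr_fC l i' j')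
  choose cd hcd hcd2 using hpr
  refine ⟨Z, Fintype.card ((Unit ⊕ κ) × Fin 3), Fintype.card (Lam r), fun a =>
    List.ofFn fun l => List.ofFn fun i => List.ofFn fun j =>
      cd (e'.symm l) (e.symm i) (e.symm j) a, hZ, hZre, ?_, ?_, ?_, ?_, ?_⟩
  · exact Fintype.card_pos_iff.2 ⟨(Sum.inl (), 0)⟩
  · exact Fintype.card_pos_iff.2 ⟨.inr (.inr (.inr ()))⟩
  · exact Primrec.list_ofFn fun l => Primrec.list_ofFn fun i => Primrec.list_ofFn fun j =>
      hcd _ _ _
  · intro a
    exact List.length_ofFn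
  · intro a
    have hcd3 : ∀ l i j, (fX M (u a) φ l ⊗ₖ fC l) i j = val (cd l i j a) := fun l i j =>
      hcd2 l i j a
    have hmats : mats (Fintype.card ((Unit ⊕ κ) × Fin 3)) (List.ofFn fun l => List.ofFn fun i =>
        List.ofFn fun j => cd (e'.symm l) (e.symm i) (e.symm j) a) =
        (fun M => M.submatrix e.symm e.symm) '' (sys M (u a) φ h0 h1).L := by
      rw [← range_letters, ← range_comp]
      ext T
      constructor
      · rintro ⟨m, hm, rfl⟩
        rw [List.mem_ofFn] at hm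
        obtain ⟨l, rfl⟩ := hm
        refine ⟨e'.symm l, ?_⟩
        ext i j
        simp only [matOf, of_apply, Function.comp_apply, submatrix_apply]
        refine (hcd3 _ _ _).trans ?_
        rw [ofFn_getD, ofFn_getD]
      · rintro ⟨l, rfl⟩
        refine ⟨_, List.mem_ofFn.2 ⟨e' l, rfl⟩, ?_⟩
        ext i j
        simp only [matOf, of_apply, Function.comp_apply, submatrix_apply]
        refine (hcd3 _ _ _).trans ?_
        rw [ofFn_getD, ofFn_getD, Equiv.symm_apply_apply]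
    rw [hmats, polyGrowth_reindex]
    have hf : ∀ n, (sys M (u a) φ h0 h1).f n = f a n := fun n => h5 a n
    constructor
    · intro hp hz
      obtain ⟨θ, N, n₀, hθ, hlen, hfn, hall⟩ := hyes a hz
      refine not_polyGrowth_of ((st M (u a) φ h0 h1).E (par 0)) N (fun m => ?_) hp
      have := (st M (u a) φ h0 h1).lower hθ (N := N) (fun n => by rw [hf]; exact hall n) hlen
        (by rw [hf]; exact hfn) m
      rw [reach_eq]
      exact this
    · intro hz
      obtain ⟨C, hC⟩ := (sys M (u a) φ h0 h1).upper fun n => by rw [hf]; exact hno a hz n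
      exact polyGrowth_of hC

end Q222.VG
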