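import Mathlib

/-!
# Vertex growth: lemmas on convex hulls
-/

set_option autoImplicit false

namespace Q222.VG

open Set

/-- A lexicographic maximum on a set is an extreme point of the convex hull. -/
theorem extreme_of_lex {V : Type*} [AddCommGroup V] [Module ℝ V] (X : Set V) (p : V)
    (L Q : V →ₗ[ℝ] ℝ) (hp : p ∈ X)
    (h : ∀ q ∈ X, q = p ∨ L q < L p ∨ (L q = L p ∧ Q q < Q p)) :
    p ∈ (convexHull ℝ X).extremePoints ℝ := by
  rw [(convex_convexHull ℝ X).mem_extremePoints_iff_convex_sdiff]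
  refine ⟨subset_convexHull ℝ X hp, ?_⟩
  let S : Set V := {y | L y < L p ∨ (L y = L p ∧ Q y < Q p)}
  have hS : Convex ℝ S := by
    intro x hx y hy a b ha hb hab
    simp only [S, mem_ofPred_eq, map_add, map_smul, smul_eq_mul] at hx hy ⊢
    have hb' : b = 1 - a := by linarith
    subst hb'
    rcases hx with hx | ⟨hx1, hx2⟩ <;> rcases hy with hy | ⟨hy1, hy2⟩
    · left
      rcases ha.eq_or_lt with rfl | ha
      · simpa using hy
      · nlinarith
    · rcases ha.eq_or_lt with rfl | ha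
      · right
        constructor <;> simp [hy1, hy2]
      · left
        rw [hy1]
        nlinarith
    · rcases hb.eq_or_lt with hb0 | hb
      · right
        have : a = 1 := by linarith
        subst this
        constructor <;> simp [hx1, hx2]
      · left
        rw [hx1]
        nlinarith
    · right
      refine ⟨by rw [hx1, hy1]; ring, ?_⟩
      rcases ha.eq_or_lt with rfl | ha
      · simpa using hy2
      · nlinarith
  have hT : Convex ℝ (insert p S) := by
    intro x hx y hy a b ha hb hab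
    rcases ha.eq_or_lt with rfl | ha
    · have : b = 1 := by linarith
      subst this
      simpa using hy
    rcases hb.eq_or_lt with rfl | hb
    · have : a = 1 := by linarith
      subst this
      simpa using hx
    rw [mem_insert_iff] at hx hy
    rcases hx with rfl | hx <;> rcases hy with rfl | hy
    · left
      rw [← add_smul, hab, one_smul]
    · right
      simp only [S, mem_ofPred_eq, map_add, map_smul, smul_eq_mul] at hy ⊢
      have hb' : b = 1 - a := by linarith
      subst hb'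
      rcases hy with hy | ⟨hy1, hy2⟩
      · left
        nlinarith
      · right
        refine ⟨by rw [hy1]; ring, by nlinarith⟩
    · right
      simp only [S, mem_ofPred_eq, map_add, map_smul, smul_eq_mul] at hx ⊢
      have hb' : b = 1 - a := by linarith
      subst hb'
      rcases hx with hx | ⟨hx1, hx2⟩
      · left
        nlinarith
      · right
        refine ⟨by rw [hx1]; ring, by nlinarith⟩
    · right
      exact hS hx hy ha.le hb.le hab
  have hsub : convexHull ℝ X ⊆ insert p S := by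
    refine convexHull_min ?_ hT
    intro q hq
    rcases h q hq with h | h | h
    · exact Or.inl h
    · exact Or.inr (Or.inl h)
    · exact Or.inr (Or.inr h)
  have hpS : p ∉ S := by
    simp [S]
  have : convexHull ℝ X \ {p} = convexHull ℝ X ∩ S := by
    ext y
    constructor
    · rintro ⟨h1, h2⟩
      refine ⟨h1, ?_⟩
      rcases hsub h1 with h3 | h3
      · exact absurd h3 h2
      · exact h3
    · rintro ⟨h1, h2⟩
      exact ⟨h1, fun h3 => hpS (h3 ▸ h2)⟩
  rw [this]
  exact (convex_convexHull ℝ X).inter hS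

/-! ### The home monoid -/

/-- the rows `0`, `±e_j` -/
def Row : Set (Fin 3 → ℝ) := {x | ∃ (s : ℝ) (j : Fin 3), (s = 0 ∨ s = 1 ∨ s = -1) ∧
  x = Pi.single j s}

/-- the `3 × 3` matrices all rows of which are `0` or `±e_j` -/
def Dm : Set (Matrix (Fin 3) (Fin 3) ℝ) := {M | ∀ i, M i ∈ Row}

theorem row_hull (x : Fin 3 → ℝ) (hx : |x 0| + |x 1| + |x 2| ≤ 1) : x ∈ convexHull ℝ Row := by
  have hc : Convex ℝ (convexHull ℝ Row) := convex_convexHull ℝ Row
  have h0 : (0 : Fin 3 → ℝ) ∈ convexHull ℝ Row :=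
    subset_convexHull ℝ _ ⟨0, 0, Or.inl rfl, by simp⟩
  have hs : ∀ j : Fin 3, ∀ t : ℝ, (Pi.single j (SignType.sign t : ℝ) : Fin 3 → ℝ) ∈
      convexHull ℝ Row := by
    intro j t
    refine subset_convexHull ℝ _ ⟨(SignType.sign t : ℝ), j, ?_, rfl⟩
    rcases lt_trichotomy t 0 with h | h | h
    · right; right; simp [h]
    · left; simp [h]
    · right; left; simp [h]
  let w : Option (Fin 3) → ℝ := fun o => o.elim (1 - (|x 0| + |x 1| + |x 2|)) fun j => |x j|
  let z : Option (Fin 3) → Fin 3 → ℝ := fun o => o.elim 0 fun j =>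
    Pi.single j (SignType.sign (x j) : ℝ)
  have h1 : ∑ o, w o = 1 := by
    rw [Fintype.sum_option, Fin.sum_univ_three]
    simp only [w, Option.elim]
    ring
  have h2 := hc.sum_mem (t := Finset.univ) (w := w) (z := z) (fun o _ => by
    rcases o with _ | j
    · simp only [w, Option.elim]; linarith
    · simp only [w, Option.elim]; exact abs_nonneg _) h1 (fun o _ => by
    rcases o with _ | j
    · exact h0
    · exact hs j (x j))
  have h3 : ∑ o, w o • z o = x := by
    rw [Fintype.sum_option, Fin.sum_univ_three]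
    funext i
    have hsg : ∀ t : ℝ, |t| * (SignType.sign t : ℝ) = t := fun t => abs_mul_sign t
    fin_cases i <;> simp [w, z, hsg]
  rwa [h3] at h2

theorem dm_hull (M : Matrix (Fin 3) (Fin 3) ℝ) (hM : ∀ i, |M i 0| + |M i 1| + |M i 2| ≤ 1) :
    M ∈ convexHull ℝ Dm := by
  have h : M ∈ convexHull ℝ ((univ : Set (Fin 3)).pi fun _ => Row) :=
    mem_convexHull_pi fun i _ => row_hull (M i) (hM i)
  have e : ((univ : Set (Fin 3)).pi fun _ => Row) = Dm := by
    ext M
    simp only [Dm, mem_univ_pi]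
    rfl
  rwa [e] at h

theorem one_mem_dm : (1 : Matrix (Fin 3) (Fin 3) ℝ) ∈ Dm := by
  intro i
  refine ⟨1, i, Or.inr (Or.inl rfl), ?_⟩
  funext j
  rw [Matrix.one_apply, Pi.single_apply]
  simp only [eq_comm]

theorem neg_mem_dm {M : Matrix (Fin 3) (Fin 3) ℝ} (h : M ∈ Dm) : -M ∈ Dm := by
  intro i
  obtain ⟨s, j, hs, hj⟩ := h i
  refine ⟨-s, j, by rcases hs with h | h | h <;> simp [h], ?_⟩
  rw [Pi.single_neg, ← hj]
  rfl

theorem zero_mem_dm : (0 : Matrix (Fin 3) (Fin 3) ℝ) ∈ Dm := by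
  intro i
  exact ⟨0, 0, Or.inl rfl, by rw [Pi.single_zero]; rfl⟩

theorem mul_mem_dm {M N : Matrix (Fin 3) (Fin 3) ℝ} (hM : M ∈ Dm) (hN : N ∈ Dm) :
    M * N ∈ Dm := by
  intro i
  obtain ⟨s, j, hs, hj⟩ := hM i
  obtain ⟨t, k, ht, hk⟩ := hN j
  refine ⟨s * t, k, ?_, ?_⟩
  · rcases hs with h | h | h <;> rcases ht with h' | h' | h' <;> simp [h, h']
  · funext l
    rw [Matrix.mul_apply, hj]
    rw [Finset.sum_eq_single j]
    · rw [Pi.single_eq_same, hk]
      simp only [Pi.single_apply]
      split <;> simp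
    · intro b _ hb
      rw [Pi.single_eq_of_ne hb, zero_mul]
    · intro h
      exact absurd (Finset.mem_univ j) h

/-- the parabola maps: `(1, t, t²)` goes to `(1, (t + b) / 2, ((t + b) / 2)²)` -/
noncomputable def Cm (b : ℝ) : Matrix (Fin 3) (Fin 3) ℝ :=
  !![1, 0, 0; b / 2, 1 / 2, 0; b ^ 2 / 4, b / 2, 1 / 4]

theorem cm_mul_dm_hull {b f : ℝ} (hb : b = 0 ∨ b = 1) (hf : |f| ≤ 1)
    {g : Matrix (Fin 3) (Fin 3) ℝ} (hg : g ∈ Dm) : f • (Cm b * g) ∈ convexHull ℝ Dm := by
  have h1 : f • Cm b ∈ convexHull ℝ Dm := by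
    apply dm_hull
    intro i
    have hf' := abs_nonneg f
    rcases hb with rfl | rfl <;> fin_cases i <;>
      simp [Cm, abs_mul] <;> linarith
  have h2 : f • (Cm b * g) = LinearMap.mulRight ℝ g (f • Cm b) := by
    simp
  rw [h2]
  have h3 : LinearMap.mulRight ℝ g (f • Cm b) ∈ LinearMap.mulRight ℝ g '' convexHull ℝ Dm :=
    mem_image_of_mem _ h1
  rw [LinearMap.image_convexHull] at h3
  refine convexHull_mono ?_ h3
  rintro _ ⟨M, hM, rfl⟩
  exact mul_mem_dm hM hg

/-! ### Norm bounds -/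

theorem dm_bound {M : Matrix (Fin 3) (Fin 3) ℝ} (hM : M ∈ Dm) {z : Fin 3 → ℝ} {R : ℝ}
    (hz : ∀ i, |z i| ≤ R) (i : Fin 3) : |(M.mulVec z) i| ≤ R := by
  obtain ⟨s, j, hs, hj⟩ := hM i
  have h1 : (M.mulVec z) i = s * z j := by
    rw [Matrix.mulVec, hj]
    simp
  rw [h1, abs_mul]
  have := hz j
  have h0 := abs_nonneg (z j)
  rcases hs with rfl | rfl | rfl
  · simp; linarith
  · simpa using this
  · simpa using this

theorem cm_bound {b : ℝ} (hb : b = 0 ∨ b = 1) {z : Fin 3 → ℝ} {R : ℝ}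
    (hz : ∀ i, |z i| ≤ R) (i : Fin 3) : |((Cm b).mulVec z) i| ≤ R := by
  have a0 := abs_le.1 (hz 0)
  have a1 := abs_le.1 (hz 1)
  have a2 := abs_le.1 (hz 2)
  rw [abs_le]
  rcases hb with rfl | rfl <;> fin_cases i <;>
    simp [Cm, Matrix.mulVec, dotProduct, Fin.sum_univ_three] <;> constructor <;> linarith

theorem cm_par (b t s : ℝ) (hb : b = 0 ∨ b = 1) :
    (Cm b).mulVec (s • ![1, t, t ^ 2]) = s • ![1, (t + b) / 2, ((t + b) / 2) ^ 2] := by
  funext i
  rcases hb with rfl | rfl <;> fin_cases i <;>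
    simp [Cm, Matrix.mulVec, dotProduct, Fin.sum_univ_three] <;> ring

end Q222.VG
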