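import Pool.Agent.Q222.VG.Rep

/-!
# Vertex growth: the instances
-/

set_option autoImplicit false
set_option linter.unusedSectionVars false

namespace Q222.VG

open Matrix Kronecker Set Pointwise

variable {r : Type} [Fintype r] [DecidableEq r]
variable {κ : Type} [Fintype κ] [DecidableEq κ]

/-! ### The blocks -/

def η0 : Matrix (Unit ⊕ κ) (Unit ⊕ κ) ℝ := fromBlocks 1 0 0 0

def s0 (u : κ → ℝ) : Matrix (Unit ⊕ κ) (Unit ⊕ κ) ℝ := fromBlocks 0 0 (of fun i _ => u i) 0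

def t0 (φ : κ → ℝ) : Matrix (Unit ⊕ κ) (Unit ⊕ κ) ℝ := fromBlocks 0 (of fun _ i => φ i) 0 0

def M0 (M : (r → ℕ) → Matrix κ κ ℝ) (n : r → ℕ) : Matrix (Unit ⊕ κ) (Unit ⊕ κ) ℝ :=
  fromBlocks 0 0 0 (M n)

theorem tMs0 (M : (r → ℕ) → Matrix κ κ ℝ) (u φ : κ → ℝ) (n : r → ℕ) :
    t0 φ * M0 M n * s0 u = (φ ⬝ᵥ (M n *ᵥ u)) • η0 := by
  have h : (of fun (_ : Unit) i => φ i) * M n * (of fun i (_ : Unit) => u i) =
      (φ ⬝ᵥ (M n *ᵥ u)) • (1 : Matrix Unit Unit ℝ) := by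
    ext a b
    rw [Matrix.mul_assoc]
    simp [Matrix.mul_apply, dotProduct, Matrix.mulVec]
  simp only [t0, M0, s0, η0, fromBlocks_multiply, Matrix.mul_zero, Matrix.zero_mul, add_zero,
    zero_add, h, fromBlocks_smul, smul_zero]

/-- the first factor with an identity matrix -/
def emb (X : Matrix (Unit ⊕ κ) (Unit ⊕ κ) ℝ) :
    Matrix ((Unit ⊕ κ) × Fin 3) ((Unit ⊕ κ) × Fin 3) ℝ := X ⊗ₖ 1

theorem emb_mul (X Y : Matrix (Unit ⊕ κ) (Unit ⊕ κ) ℝ) : emb X * emb Y = emb (X * Y) := by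
  simp only [emb]
  rw [← mul_kronecker_mul, Matrix.one_mul]

/-- the second factor -/
def dl : Matrix (Fin 3) (Fin 3) ℝ →ₐ[ℝ] Matrix ((Unit ⊕ κ) × Fin 3) ((Unit ⊕ κ) × Fin 3) ℝ where
  toFun C := (1 : Matrix (Unit ⊕ κ) (Unit ⊕ κ) ℝ) ⊗ₖ C
  map_one' := one_kronecker_one
  map_mul' C D := by rw [← mul_kronecker_mul, Matrix.one_mul]
  map_zero' := by simp
  map_add' C D := by rw [kronecker_add]
  commutes' x := by
    rw [Algebra.algebraMap_eq_smul_one, Algebra.algebraMap_eq_smul_one, kronecker_smul,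
      one_kronecker_one]

theorem emb_dl (X : Matrix (Unit ⊕ κ) (Unit ⊕ κ) ℝ) (C : Matrix (Fin 3) (Fin 3) ℝ) :
    emb X * dl C = X ⊗ₖ C := by
  show (X ⊗ₖ 1) * (1 ⊗ₖ C) = _
  rw [← mul_kronecker_mul, Matrix.one_mul, Matrix.mul_one]

theorem dl_emb (X : Matrix (Unit ⊕ κ) (Unit ⊕ κ) ℝ) (C : Matrix (Fin 3) (Fin 3) ℝ) :
    dl C * emb X = X ⊗ₖ C := by
  show (1 ⊗ₖ C) * (X ⊗ₖ 1) = _
  rw [← mul_kronecker_mul, Matrix.one_mul, Matrix.mul_one]

/-- the system -/
def sys (M : (r → ℕ) → Matrix κ κ ℝ) (u φ : κ → ℝ) (h0 : M 0 = 1)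
    (h1 : ∀ m n, M m * M n = M (m + n)) :
    Sys r (Matrix ((Unit ⊕ κ) × Fin 3) ((Unit ⊕ κ) × Fin 3) ℝ) where
  η := emb η0
  s := emb (s0 u)
  t := emb (t0 φ)
  M n := emb (M0 M n)
  δ := dl
  f n := φ ⬝ᵥ (M n *ᵥ u)
  ηη := by rw [emb_mul]; simp [η0, fromBlocks_multiply]
  δη C := by rw [emb_dl, dl_emb]
  sη := by rw [emb_mul]; simp [η0, s0, fromBlocks_multiply]
  ηt := by rw [emb_mul]; simp [η0, t0, fromBlocks_multiply]
  MM m n := by rw [emb_mul]; simp [M0, fromBlocks_multiply, h1]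
  M0s := by rw [emb_mul]; simp [M0, s0, fromBlocks_multiply, h0]
  tM0 := by rw [emb_mul]; simp [M0, t0, fromBlocks_multiply, h0]
  tMs n := by
    rw [emb_mul, emb_mul, tMs0]
    simp only [emb, smul_kronecker]
  ηM n := by rw [emb_mul]; simp [M0, η0, fromBlocks_multiply, emb]
  Mη n := by rw [emb_mul]; simp [M0, η0, fromBlocks_multiply, emb]
  tη := by rw [emb_mul]; simp [t0, η0, fromBlocks_multiply, emb]

/-- pure tensors -/
def tens (x : Unit ⊕ κ → ℝ) (z : Fin 3 → ℝ) : (Unit ⊕ κ) × Fin 3 → ℝ := fun p => x p.1 * z p.2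

theorem kron_tens (X : Matrix (Unit ⊕ κ) (Unit ⊕ κ) ℝ) (C : Matrix (Fin 3) (Fin 3) ℝ)
    (x : Unit ⊕ κ → ℝ) (z : Fin 3 → ℝ) : (X ⊗ₖ C) *ᵥ tens x z = tens (X *ᵥ x) (C *ᵥ z) :=
  kron_mulVec X C x z

/-- the home vector -/
def ev : Unit ⊕ κ → ℝ := Sum.elim (fun _ => 1) 0

/-- the other vectors -/
def mv (x : κ → ℝ) : Unit ⊕ κ → ℝ := Sum.elim 0 x

/-- the states -/
def st (M : (r → ℕ) → Matrix κ κ ℝ) (u φ : κ → ℝ) (h0 : M 0 = 1)
    (h1 : ∀ m n, M m * M n = M (m + n)) :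
    St (sys M u φ h0 h1) ((Unit ⊕ κ) × Fin 3 → ℝ) where
  act := (Matrix.toLinAlgEquiv' :
    Matrix ((Unit ⊕ κ) × Fin 3) ((Unit ⊕ κ) × Fin 3) ℝ ≃ₐ[ℝ] _).toAlgHom
  E := { toFun := fun z => tens ev z
         map_add' := fun z z' => by funext p; simp [tens, mul_add]
         map_smul' := fun c z => by funext p; simp [tens]; ring }
  P := { toFun := fun v i => v (Sum.inl (), i)
         map_add' := fun z z' => rfl
         map_smul' := fun c z => rfl }
  U n z := tens (mv (M n *ᵥ u)) z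
  PE z := by funext i; simp [tens, ev]
  PU n z := by funext i; simp [tens, mv]
  ηE g z := by
    show (emb η0 * dl g) *ᵥ tens ev z = tens ev (g *ᵥ z)
    rw [emb_dl, kron_tens]
    congr 1
    simp only [η0, ev, fromBlocks_mulVec]
    funext i
    rcases i with i | i <;> simp [Function.comp_def]
  ηU g n z := by
    show (emb η0 * dl g) *ᵥ tens (mv (M n *ᵥ u)) z = 0
    rw [emb_dl, kron_tens]
    have : η0 *ᵥ mv (M n *ᵥ u) = 0 := by
      simp only [η0, mv, fromBlocks_mulVec]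
      funext i
      rcases i with i | i <;> simp [Function.comp_def]
    rw [this]
    funext p
    simp [tens]
  sE g z := by
    show (emb (s0 u) * dl g) *ᵥ tens ev z = tens (mv (M 0 *ᵥ u)) (g *ᵥ z)
    rw [emb_dl, kron_tens, h0, one_mulVec]
    congr 1
    simp only [s0, ev, mv, fromBlocks_mulVec]
    funext i
    rcases i with i | i <;> simp [Function.comp_def, Matrix.mulVec, dotProduct]
  sU g n z := by
    show (emb (s0 u) * dl g) *ᵥ tens (mv (M n *ᵥ u)) z = 0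
    rw [emb_dl, kron_tens]
    have : s0 u *ᵥ mv (M n *ᵥ u) = 0 := by
      simp only [s0, mv, fromBlocks_mulVec]
      funext i
      rcases i with i | i <;> simp [Function.comp_def, Matrix.mulVec, dotProduct]
    rw [this]
    funext p
    simp [tens]
  ME j z := by
    show (emb (M0 M (Pi.single j 1))) *ᵥ tens ev z = 0
    rw [emb, kron_tens]
    have : M0 M (Pi.single j 1) *ᵥ (ev : Unit ⊕ κ → ℝ) = 0 := by
      simp only [M0, ev, fromBlocks_mulVec]
      funext i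
      rcases i with i | i <;> simp [Function.comp_def, Matrix.mulVec, dotProduct]
    rw [this]
    funext p
    simp [tens]
  MU j n z := by
    show (emb (M0 M (Pi.single j 1))) *ᵥ tens (mv (M n *ᵥ u)) z =
      tens (mv (M (Pi.single j 1 + n) *ᵥ u)) z
    rw [emb, kron_tens, one_mulVec]
    congr 1
    simp only [M0, mv, fromBlocks_mulVec]
    funext i
    rcases i with i | i <;> simp [Function.comp_def, ← h1]
  tE z := by
    show emb (t0 φ) *ᵥ tens ev z = 0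
    rw [emb, kron_tens]
    have : t0 φ *ᵥ (ev : Unit ⊕ κ → ℝ) = 0 := by
      simp only [t0, ev, fromBlocks_mulVec]
      funext i
      rcases i with i | i <;> simp [Function.comp_def, Matrix.mulVec, dotProduct]
    rw [this]
    funext p
    simp [tens]
  tU n z := by
    show emb (t0 φ) *ᵥ tens (mv (M n *ᵥ u)) z = tens ev ((φ ⬝ᵥ (M n *ᵥ u)) • z)
    rw [emb, kron_tens, one_mulVec]
    have : t0 φ *ᵥ mv (M n *ᵥ u) = (φ ⬝ᵥ (M n *ᵥ u)) • (ev : Unit ⊕ κ → ℝ) := by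
      simp only [t0, mv, ev, fromBlocks_mulVec]
      funext i
      rcases i with i | i
      · simp [Function.comp_def, Matrix.mulVec, dotProduct]
      · simp [Function.comp_def]
    rw [this]
    funext p
    simp [tens]
    ring

end Q222.VG
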