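import Pool.Agent.Q222.VG.Upper

/-!
# Vertex growth: the lower bound
-/

set_option autoImplicit false
set_option linter.unusedSectionVars false

namespace Q222.VG

open Set Pointwise

variable {r : Type} [Fintype r] [DecidableEq r] {A : Type} [Ring A] [Algebra ℝ A]

theorem Sys.L_finite (S : Sys r A) : S.L.Finite := by
  have h1 : (S.L) ⊆ (fun g => S.η * S.δ g) '' Dm ∪ (range (fun b => S.s * S.δ (Cm (bv b))) ∪
      (range (fun j : r => S.M (Pi.single j 1)) ∪ {S.t})) := by
    rintro x (⟨g, hg, rfl⟩ | ⟨b, rfl⟩ | ⟨j, rfl⟩ | rfl)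
    · exact Or.inl ⟨g, hg, rfl⟩
    · exact Or.inr (Or.inl ⟨b, rfl⟩)
    · exact Or.inr (Or.inr (Or.inl ⟨j, rfl⟩))
    · exact Or.inr (Or.inr (Or.inr rfl))
  refine Finite.subset ?_ h1
  exact (dm_finite.image _).union ((finite_range _).union ((finite_range _).union
    (finite_singleton _)))

theorem Sys.pow_finite (S : Sys r A) (k : ℕ) : (S.L ^ k).Finite := by
  induction k with
  | zero => rw [pow_zero]; exact finite_one
  | succ k ih => rw [pow_succ']; exact S.L_finite.mul ih

/-- The states on which a system acts. -/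
structure St (S : Sys r A) (V : Type) [AddCommGroup V] [Module ℝ V] where
  act : A →ₐ[ℝ] Module.End ℝ V
  E : (Fin 3 → ℝ) →ₗ[ℝ] V
  P : V →ₗ[ℝ] (Fin 3 → ℝ)
  U : (r → ℕ) → (Fin 3 → ℝ) → V
  PE : ∀ z, P (E z) = z
  PU : ∀ n z, P (U n z) = 0
  ηE : ∀ g z, act (S.η * S.δ g) (E z) = E (g.mulVec z)
  ηU : ∀ g n z, act (S.η * S.δ g) (U n z) = 0
  sE : ∀ g z, act (S.s * S.δ g) (E z) = U 0 (g.mulVec z)
  sU : ∀ g n z, act (S.s * S.δ g) (U n z) = 0
  ME : ∀ j z, act (S.M (Pi.single j 1)) (E z) = 0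
  MU : ∀ j n z, act (S.M (Pi.single j 1)) (U n z) = U (Pi.single j 1 + n) z
  tE : ∀ z, act S.t (E z) = 0
  tU : ∀ n z, act S.t (U n z) = E (S.f n • z)

/-- the point of the parabola -/
noncomputable def par (t : ℝ) : Fin 3 → ℝ := ![1, t, t ^ 2]

/-- The invariant of the home vectors at time `k`. -/
def Good (θ : ℝ) (N k : ℕ) (z : Fin 3 → ℝ) : Prop :=
  (∃ c : ℕ, c * (N + 2) < k ∧ ∀ i, |z i| ≤ θ ^ c) ∨
  (∃ c j : ℕ, k = c * (N + 2) ∧ j < 2 ^ c ∧ z = θ ^ c • par ((j : ℝ) / 2 ^ c))

theorem par_bound {t : ℝ} (h0 : 0 ≤ t) (h1 : t ≤ 1) (i : Fin 3) : |par t i| ≤ 1 := by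
  fin_cases i
  · simp [par]
  · simpa [par, abs_of_nonneg h0] using h1
  · simp only [par]
    show |t ^ 2| ≤ 1
    rw [abs_of_nonneg (by positivity)]
    nlinarith

theorem dyadic_mem {c j : ℕ} (h : j < 2 ^ c) : (0 : ℝ) ≤ (j : ℝ) / 2 ^ c ∧ (j : ℝ) / 2 ^ c ≤ 1 := by
  refine ⟨by positivity, ?_⟩
  rw [div_le_one (by positivity)]
  exact_mod_cast h.le

theorem Good.bound {θ : ℝ} (hθ : 1 < θ) {N k : ℕ} {z : Fin 3 → ℝ} (h : Good θ N k z) :
    ∃ c : ℕ, c * (N + 2) ≤ k ∧ ∀ i, |z i| ≤ θ ^ c := by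
  rcases h with ⟨c, h1, h2⟩ | ⟨c, j, h1, h2, rfl⟩
  · exact ⟨c, h1.le, h2⟩
  · refine ⟨c, h1.ge, fun i => ?_⟩
    rw [Pi.smul_apply, smul_eq_mul, abs_mul, abs_of_pos (by positivity)]
    have := par_bound (dyadic_mem h2).1 (dyadic_mem h2).2 i
    have h3 : 0 < θ ^ c := by positivity
    nlinarith

namespace St

variable {S : Sys r A} {V : Type} [AddCommGroup V] [Module ℝ V] (T : St S V)

/-- the reachable states -/
def X (k : ℕ) : Set V := (fun x => T.act x (T.E (par 0))) '' S.L ^ k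

theorem X_succ {k : ℕ} {v : V} (h : v ∈ T.X (k + 1)) : ∃ l ∈ S.L, ∃ w ∈ T.X k, v = T.act l w := by
  obtain ⟨x, hx, rfl⟩ := h
  rw [pow_succ'] at hx
  obtain ⟨l, hl, y, hy, rfl⟩ := hx
  exact ⟨l, hl, _, ⟨y, hy, rfl⟩, by simp⟩

theorem X_add {k l : ℕ} {y : A} (hy : y ∈ S.L ^ l) {v : V} (h : v ∈ T.X k) :
    T.act y v ∈ T.X (l + k) := by
  obtain ⟨x, hx, rfl⟩ := h
  refine ⟨y * x, ?_, by simp⟩
  rw [pow_add]
  exact mul_mem_mul hy hx

theorem X_finite (k : ℕ) : (T.X k).Finite := (S.pow_finite k).image _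

section
variable {θ : ℝ} (hθ : 1 < θ) {N : ℕ}
  (hf : ∀ n, |S.f n| ≤ 1 ∨ (|S.f n| ≤ θ ∧ N < len n) ∨ (S.f n = θ ∧ len n = N))

include hθ hf

theorem inv (k : ℕ) : ∀ v ∈ T.X k, (∃ z, v = T.E z ∧ Good θ N k z) ∨
    (∃ n b z k', v = T.U n ((Cm (bv b)).mulVec z) ∧ Good θ N k' z ∧ k = k' + 1 + len n) := by
  have zero : ∀ k, 0 < k → Good θ N k 0 := by
    intro k hk
    left
    exact ⟨0, by simpa using hk, fun i => by simp⟩
  induction k with
  | zero =>
    rintro v ⟨x, hx, rfl⟩
    rw [pow_zero] at hx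
    have : x = 1 := hx
    subst this
    left
    refine ⟨par 0, by simp, Or.inr ⟨0, 0, by simp, by simp, by simp⟩⟩
  | succ k ih =>
    intro v hv
    obtain ⟨l, hl, w, hw, rfl⟩ := T.X_succ hv
    rcases ih w hw with ⟨z, rfl, hz⟩ | ⟨n, b, z, k', rfl, hz, hk⟩
    · rcases hl with ⟨g, hg, rfl⟩ | ⟨b, rfl⟩ | ⟨j, rfl⟩ | rfl
      · left
        obtain ⟨c, hc, hb⟩ := hz.bound hθ
        refine ⟨_, T.ηE g z, Or.inl ⟨c, by omega, fun i => dm_bound hg hb i⟩⟩
      · right
        exact ⟨0, b, z, k, T.sE _ z, hz, by rw [len_zero]⟩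
      · left
        exact ⟨0, by rw [T.ME, map_zero], zero _ (by omega)⟩
      · left
        exact ⟨0, by rw [T.tE, map_zero], zero _ (by omega)⟩
    · rcases hl with ⟨g, hg, rfl⟩ | ⟨b', rfl⟩ | ⟨j, rfl⟩ | rfl
      · left
        exact ⟨0, by rw [T.ηU, map_zero], zero _ (by omega)⟩
      · left
        exact ⟨0, by rw [T.sU, map_zero], zero _ (by omega)⟩
      · right
        refine ⟨Pi.single j 1 + n, b, z, k', T.MU j n _, hz, ?_⟩
        rw [len_add, len_single]
        omega
      · left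
        refine ⟨_, T.tU n _, ?_⟩
        rcases hf n with h1 | ⟨h1, h2⟩ | ⟨h1, h2⟩
        · obtain ⟨c, hc, hb⟩ := hz.bound hθ
          refine Or.inl ⟨c, by omega, fun i => ?_⟩
          rw [Pi.smul_apply, smul_eq_mul, abs_mul]
          have h3 := cm_bound (bv_or b) hb i
          have h4 := abs_nonneg (((Cm (bv b)).mulVec z) i)
          have h5 := abs_nonneg (S.f n)
          nlinarith
        · obtain ⟨c, hc, hb⟩ := hz.bound hθ
          refine Or.inl ⟨c + 1, by rw [add_mul]; omega, fun i => ?_⟩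
          rw [Pi.smul_apply, smul_eq_mul, abs_mul, pow_succ, mul_comm (θ ^ c)]
          have h3 := cm_bound (bv_or b) hb i
          exact mul_le_mul h1 h3 (abs_nonneg _) (by linarith)
        · rw [h1]
          rcases hz with ⟨c, hc, hb⟩ | ⟨c, j, hc, hj, rfl⟩
          · refine Or.inl ⟨c + 1, by rw [add_mul]; omega, fun i => ?_⟩
            rw [Pi.smul_apply, smul_eq_mul, abs_mul, pow_succ, mul_comm (θ ^ c),
              abs_of_pos (by linarith : 0 < θ)]
            have h3 := cm_bound (bv_or b) hb i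
            exact mul_le_mul_of_nonneg_left h3 (by linarith)
          · right
            refine ⟨c + 1, (if b then 2 ^ c + j else j), by rw [add_mul]; omega, ?_, ?_⟩
            · rw [pow_succ]
              split <;> omega
            · have := cm_par (bv b) ((j : ℝ) / 2 ^ c) (θ ^ c) (bv_or b)
              have e : par ((j : ℝ) / 2 ^ c) = ![1, (j : ℝ) / 2 ^ c, ((j : ℝ) / 2 ^ c) ^ 2] := rfl
              rw [e, this, smul_smul, pow_succ, mul_comm θ]
              have h2c : (2 : ℝ) ^ c ≠ 0 := by positivity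
              have e2 : ((j : ℝ) / 2 ^ c + bv b) / 2 =
                  ((if b then 2 ^ c + j else j : ℕ) : ℝ) / 2 ^ (c + 1) := by
                rcases b with _ | _
                · simp only [bv, pow_succ]
                  simp
                  field_simp
                · simp only [bv, pow_succ]
                  simp
                  field_simp
                  ring
              rw [e2]
              rfl

end

theorem reach_par {θ : ℝ} {N : ℕ} {n₀ : r → ℕ} (h0 : len n₀ = N) (h1 : S.f n₀ = θ) (m : ℕ) :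
    ∀ j : ℕ, j < 2 ^ m → T.E (θ ^ m • par ((j : ℝ) / 2 ^ m)) ∈ T.X (m * (N + 2)) := by
  induction m with
  | zero =>
    intro j hj
    have : j = 0 := by simpa using hj
    subst this
    refine ⟨1, by simp, by simp⟩
  | succ m ih =>
    intro j hj
    obtain ⟨b, i, hi, hbi⟩ : ∃ (b : Bool) (i : ℕ), i < 2 ^ m ∧
        ((i : ℝ) / 2 ^ m + bv b) / 2 = (j : ℝ) / 2 ^ (m + 1) := by
      by_cases hlt : j < 2 ^ m
      · refine ⟨false, j, hlt, ?_⟩
        simp only [bv, pow_succ]
        simp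
        field_simp
      · refine ⟨true, j - 2 ^ m, by rw [pow_succ] at hj; omega, ?_⟩
        rw [Nat.cast_sub (by omega)]
        simp only [bv, pow_succ]
        simp
        field_simp
        ring
    have h2 := ih i hi
    have h3 : S.t * S.lft (some (n₀, b)) ∈ S.L ^ (N + 2) := by
      rw [← h0, show len n₀ + 2 = (len n₀ + 1) + 1 from rfl, pow_succ']
      exact mul_mem_mul (Or.inr (Or.inr (Or.inr rfl))) (S.lft_mem n₀ b)
    have h4 := T.X_add h3 h2
    have e : S.t * S.lft (some (n₀, b)) = θ • (S.η * S.δ (Cm (bv b))) := by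
      simp only [Sys.lft, ← mul_assoc]
      rw [S.tMs, h1, smul_mul_assoc]
    rw [e, map_smul, LinearMap.smul_apply, T.ηE] at h4
    have e2 : par ((i : ℝ) / 2 ^ m) = ![1, (i : ℝ) / 2 ^ m, ((i : ℝ) / 2 ^ m) ^ 2] := rfl
    rw [e2, cm_par _ _ _ (bv_or b), hbi, ← map_smul, smul_smul, ← pow_succ'] at h4
    have e3 : (m + 1) * (N + 2) = N + 2 + m * (N + 2) := by ring
    rw [e3]
    exact h4

theorem lower {θ : ℝ} (hθ : 1 < θ) {N : ℕ}
    (hf : ∀ n, |S.f n| ≤ 1 ∨ (|S.f n| ≤ θ ∧ N < len n) ∨ (S.f n = θ ∧ len n = N))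
    {n₀ : r → ℕ} (h0 : len n₀ = N) (h1 : S.f n₀ = θ) (m : ℕ) :
    2 ^ m ≤ ((convexHull ℝ (T.X (m * (N + 2)))).extremePoints ℝ).ncard := by
  let p : ℕ → V := fun j => T.E (θ ^ m • par ((j : ℝ) / 2 ^ m))
  have hθm : 0 < θ ^ m := by positivity
  have key : ∀ j ∈ Finset.range (2 ^ m),
      p j ∈ (convexHull ℝ (T.X (m * (N + 2)))).extremePoints ℝ := by
    intro j hj
    rw [Finset.mem_range] at hj
    set t : ℝ := (j : ℝ) / 2 ^ m with ht
    let L : V →ₗ[ℝ] ℝ := LinearMap.proj 0 ∘ₗ T.P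
    let Q : V →ₗ[ℝ] ℝ := (2 * t) • (LinearMap.proj 1 ∘ₗ T.P) - (LinearMap.proj 2 ∘ₗ T.P) -
      t ^ 2 • (LinearMap.proj 0 ∘ₗ T.P)
    have hL : L (p j) = θ ^ m := by
      simp [L, p, T.PE, par]
    refine extreme_of_lex _ _ L Q (T.reach_par h0 h1 m j hj) ?_
    intro q hq
    rcases T.inv hθ hf _ q hq with ⟨z, rfl, hz⟩ | ⟨n, b, z, k', rfl, hz, hk⟩
    · rcases hz with ⟨c, hc, hb⟩ | ⟨c, i, hc, hi, rfl⟩
      · right; left
        rw [hL]
        have h2 : L (T.E z) = z 0 := by simp [L, T.PE]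
        rw [h2]
        have hcm : c < m := by
          by_contra hcon
          push Not at hcon
          have := Nat.mul_le_mul_right (N + 2) hcon
          omega
        calc z 0 ≤ |z 0| := le_abs_self _
          _ ≤ θ ^ c := hb 0
          _ < θ ^ m := pow_lt_pow_right₀ hθ hcm
      · have hcm : c = m := by
          have : (m - c) * (N + 2) = 0 ∧ (c - m) * (N + 2) = 0 := by
            constructor
            · rw [Nat.sub_mul, hc, Nat.sub_self]
            · rw [Nat.sub_mul, hc, Nat.sub_self]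
          have h3 := Nat.mul_eq_zero.1 this.1
          have h4 := Nat.mul_eq_zero.1 this.2
          omega
        subst hcm
        by_cases hij : i = j
        · left
          rw [hij]
        · right; right
          constructor
          · rw [hL]
            simp [L, T.PE, par]
          · have e : ∀ a : ℝ, Q (T.E (θ ^ c • par a)) = - (θ ^ c * (a - t) ^ 2) := by
              intro a
              simp [Q, T.PE, par]
              ring
            have e2 : Q (p j) = 0 := by
              rw [show p j = T.E (θ ^ c • par t) from rfl, e]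
              simp
            rw [e2, e]
            have hne : (i : ℝ) / 2 ^ c - t ≠ 0 := by
              rw [sub_ne_zero, ht]
              intro hcon
              have h2c : (2 : ℝ) ^ c ≠ 0 := by positivity
              have := (div_left_inj' h2c).1 hcon
              exact hij (by exact_mod_cast this)
            have : 0 < ((i : ℝ) / 2 ^ c - t) ^ 2 := by positivity
            have := mul_pos hθm this
            linarith
    · right; left
      rw [hL]
      have : L (T.U n ((Cm (bv b)).mulVec z)) = 0 := by simp [L, T.PU]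
      rw [this]
      exact hθm
  have hfin : ((convexHull ℝ (T.X (m * (N + 2)))).extremePoints ℝ).Finite :=
    (T.X_finite _).subset extremePoints_convexHull_subset
  have hinj : Set.InjOn p (Finset.range (2 ^ m)) := by
    intro i _ j _ hij
    have h2 := congrArg T.P hij
    simp only [p, T.PE] at h2
    have h3 := congrFun h2 1
    simp only [par, Pi.smul_apply, smul_eq_mul] at h3
    have h4 : (i : ℝ) / 2 ^ m = (j : ℝ) / 2 ^ m := mul_left_cancel₀ hθm.ne' h3
    have h2c : (2 : ℝ) ^ m ≠ 0 := by positivity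
    have := (div_left_inj' h2c).1 h4
    exact_mod_cast this
  calc 2 ^ m = ((Finset.range (2 ^ m) : Finset ℕ) : Set ℕ).ncard := by
        rw [ncard_coe_finset, Finset.card_range]
    _ = (p '' (Finset.range (2 ^ m) : Set ℕ)).ncard := hinj.ncard_image.symm
    _ ≤ _ := ncard_le_ncard (by
        rintro _ ⟨j, hj, rfl⟩
        exact key j hj) hfin

end St

end Q222.VG
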