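import Pool.Agent.Q222.VG.Lower
import Pool.Agent.Helper844.DPRM

/-!
# Vertex growth: polynomials as coefficients of commuting matrices
-/

set_option autoImplicit false
set_option linter.unusedSectionVars false

namespace Q222.VG

open Matrix Kronecker

/-! ### Codes of rational numbers -/

/-- `(p, q, s)` is a code of `(p - q) / (s + 1)` -/
noncomputable def val (c : ℕ × ℕ × ℕ) : ℝ := ((c.1 : ℝ) - c.2.1) / (c.2.2 + 1)

/-- rational functions of the parameter -/
def PR (h : ℕ → ℝ) : Prop := ∃ c : ℕ → ℕ × ℕ × ℕ, Primrec c ∧ ∀ a, h a = val (c a)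

theorem PR.mk {h : ℕ → ℝ} {p q s : ℕ → ℕ} (hp : Primrec p) (hq : Primrec q) (hs : Primrec s)
    (e : ∀ a, h a = ((p a : ℝ) - q a) / (s a + 1)) : PR h :=
  ⟨fun a => (p a, q a, s a), hp.pair (hq.pair hs), e⟩

theorem PR.nat {p : ℕ → ℕ} (hp : Primrec p) : PR fun a => (p a : ℝ) :=
  PR.mk hp (Primrec.const 0) (Primrec.const 0) (by simp)

theorem PR.int (c : ℤ) : PR fun _ => (c : ℝ) := by
  refine PR.mk (Primrec.const c.toNat) (Primrec.const (-c).toNat) (Primrec.const 0) fun a => ?_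
  simp only [Nat.cast_zero, zero_add, div_one]
  have : (c : ℤ) = (c.toNat : ℤ) - ((-c).toNat : ℤ) := by omega
  exact_mod_cast this

theorem PR.zero : PR fun _ => (0 : ℝ) := by simpa using PR.int 0

theorem PR.one : PR fun _ => (1 : ℝ) := by simpa using PR.int 1

theorem PR.inv {p : ℕ → ℕ} (hp : Primrec p) : PR fun a => 1 / ((p a : ℝ) + 1) :=
  PR.mk (Primrec.const 1) (Primrec.const 0) hp (by simp)

theorem PR.mul {h k : ℕ → ℝ} (hh : PR h) (hk : PR k) : PR fun a => h a * k a := by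
  obtain ⟨c, hc, ec⟩ := hh
  obtain ⟨d, hd, ed⟩ := hk
  have c1 := Primrec.fst.comp hc
  have c2 := Primrec.fst.comp (Primrec.snd.comp hc)
  have c3 := Primrec.snd.comp (Primrec.snd.comp hc)
  have d1 := Primrec.fst.comp hd
  have d2 := Primrec.fst.comp (Primrec.snd.comp hd)
  have d3 := Primrec.snd.comp (Primrec.snd.comp hd)
  refine PR.mk (Primrec.nat_add.comp (Primrec.nat_mul.comp c1 d1) (Primrec.nat_mul.comp c2 d2))
    (Primrec.nat_add.comp (Primrec.nat_mul.comp c1 d2) (Primrec.nat_mul.comp c2 d1))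
    (Primrec.nat_add.comp (Primrec.nat_mul.comp c3 d3) (Primrec.nat_add.comp c3 d3))
    fun a => ?_
  rw [ec, ed]
  simp only [val]
  push_cast
  have h1 : ((c a).2.2 : ℝ) + 1 ≠ 0 := by positivity
  have h2 : ((d a).2.2 : ℝ) + 1 ≠ 0 := by positivity
  have h3 : ((c a).2.2 : ℝ) * (d a).2.2 + ((c a).2.2 + (d a).2.2) + 1 ≠ 0 := by positivity
  field_simp
  ring

theorem PR.sub {h k : ℕ → ℝ} (hh : PR h) (hk : PR k) : PR fun a => h a - k a := by
  obtain ⟨c, hc, ec⟩ := hh
  obtain ⟨d, hd, ed⟩ := hk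
  have c1 := Primrec.fst.comp hc
  have c2 := Primrec.fst.comp (Primrec.snd.comp hc)
  have c3 := Primrec.snd.comp (Primrec.snd.comp hc)
  have d1 := Primrec.fst.comp hd
  have d2 := Primrec.fst.comp (Primrec.snd.comp hd)
  have d3 := Primrec.snd.comp (Primrec.snd.comp hd)
  refine PR.mk (Primrec.nat_add.comp (Primrec.nat_mul.comp c1 (Primrec.succ.comp d3))
      (Primrec.nat_mul.comp d2 (Primrec.succ.comp c3)))
    (Primrec.nat_add.comp (Primrec.nat_mul.comp c2 (Primrec.succ.comp d3))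
      (Primrec.nat_mul.comp d1 (Primrec.succ.comp c3)))
    (Primrec.nat_add.comp (Primrec.nat_mul.comp c3 d3) (Primrec.nat_add.comp c3 d3))
    fun a => ?_
  rw [ec, ed]
  simp only [val]
  push_cast
  have h1 : ((c a).2.2 : ℝ) + 1 ≠ 0 := by positivity
  have h2 : ((d a).2.2 : ℝ) + 1 ≠ 0 := by positivity
  have h3 : ((c a).2.2 : ℝ) * (d a).2.2 + ((c a).2.2 + (d a).2.2) + 1 ≠ 0 := by positivity
  field_simp
  ring

theorem PR.neg {h : ℕ → ℝ} (hh : PR h) : PR fun a => - h a := by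
  simpa using PR.zero.sub hh

theorem PR.congr {h k : ℕ → ℝ} (hh : PR h) (e : ∀ a, k a = h a) : PR k := by
  have : k = h := funext e
  rwa [this]

theorem PR.pow {h : ℕ → ℝ} (hh : PR h) (n : ℕ) : PR fun a => h a ^ n := by
  induction n with
  | zero => simpa using PR.one
  | succ n ih => simpa [pow_succ] using ih.mul hh

/-! ### Recognizable functions -/

variable {r : Type} [Fintype r] [DecidableEq r]

/-- Functions of the form `φ M(n) u` with a representation `M` of `ℕ^r`. -/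
def Rec (g : ℕ → (r → ℕ) → ℝ) : Prop :=
  ∃ (κ : Type) (_ : Fintype κ) (_ : DecidableEq κ) (M : (r → ℕ) → Matrix κ κ ℝ)
    (u : ℕ → κ → ℝ) (φ : κ → ℝ), M 0 = 1 ∧ (∀ m n, M m * M n = M (m + n)) ∧
    (∀ m i j, PR fun _ => M m i j) ∧ (∀ i, PR fun a => u a i) ∧ (∀ i, PR fun _ => φ i) ∧
    ∀ a n, φ ⬝ᵥ (M n *ᵥ u a) = g a n

theorem Rec.par {h : ℕ → ℝ} (hh : PR h) : Rec fun a (_ : r → ℕ) => h a := by
  refine ⟨Unit, inferInstance, inferInstance, fun _ => 1, fun a _ => h a, fun _ => 1, rfl,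
    by simp, ?_, fun _ => hh, fun _ => PR.one, fun a n => by simp [dotProduct]⟩
  intro m i j
  simpa using PR.one

theorem Rec.geom (b : ℕ) : Rec fun _ (n : r → ℕ) => (1 / ((b : ℝ) + 1)) ^ len n := by
  refine ⟨Unit, inferInstance, inferInstance, fun n => (1 / ((b : ℝ) + 1)) ^ len n • 1,
    fun _ _ => 1, fun _ => 1, by simp [len_zero], ?_, ?_, fun _ => PR.one, fun _ => PR.one, ?_⟩
  · intro m n
    beta_reduce
    rw [len_add, pow_add]
    simp [smul_smul, mul_comm]
  · intro m i j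
    simpa using (PR.inv (Primrec.const b)).pow (len m)
  · intro a n
    simp [dotProduct, Matrix.mulVec]

theorem Rec.coord (j : r) : Rec fun _ (n : r → ℕ) => (n j : ℝ) := by
  refine ⟨Fin 2, inferInstance, inferInstance, fun n => !![1, (n j : ℝ); 0, 1],
    fun _ => ![0, 1], ![1, 0], ?_, ?_, ?_, ?_, ?_, ?_⟩
  · ext a b
    fin_cases a <;> fin_cases b <;> simp
  · intro m n
    ext a b
    fin_cases a <;> fin_cases b <;> simp [Matrix.mul_apply, Fin.sum_univ_two, add_comm]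
  · intro m a b
    fin_cases a <;> fin_cases b
    · simpa using PR.one
    · simpa using PR.nat (Primrec.const (m j))
    · simpa using PR.zero
    · simpa using PR.one
  · intro a
    fin_cases a
    · simpa using PR.zero
    · simpa using PR.one
  · intro a
    fin_cases a
    · simpa using PR.one
    · simpa using PR.zero
  · intro a n
    simp [dotProduct, Matrix.mulVec, Fin.sum_univ_two]

theorem Rec.sub {g h : ℕ → (r → ℕ) → ℝ} (hg : Rec g) (hh : Rec h) :
    Rec fun a n => g a n - h a n := by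
  obtain ⟨κ, _, _, M, u, φ, h0, h1, h2, h3, h4, h5⟩ := hg
  obtain ⟨κ', _, _, M', u', φ', h0', h1', h2', h3', h4', h5'⟩ := hh
  refine ⟨κ ⊕ κ', inferInstance, inferInstance, fun n => fromBlocks (M n) 0 0 (M' n),
    fun a => Sum.elim (u a) (u' a), Sum.elim φ (-φ'), ?_, ?_, ?_, ?_, ?_, ?_⟩
  · simp only [h0, h0']
    exact fromBlocks_one
  · intro m n
    rw [fromBlocks_multiply]
    simp [h1, h1']
  · rintro m (i | i) (j | j)
    · exact h2 m i j
    · exact PR.zero
    · exact PR.zero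
    · exact h2' m i j
  · rintro (i | i)
    · exact h3 i
    · exact h3' i
  · rintro (i | i)
    · exact h4 i
    · exact (h4' i).neg
  · intro a n
    beta_reduce
    rw [fromBlocks_mulVec, ← h5 a n, ← h5' a n]
    simp only [dotProduct, Fintype.sum_sum_type, Sum.elim_inl, Sum.elim_inr]
    simp only [zero_mulVec, add_zero, zero_add, Pi.neg_apply, neg_mul, Finset.sum_neg_distrib]
    simp [sub_eq_add_neg, Function.comp_def]

theorem kron_mulVec {κ κ' : Type} [Fintype κ] [Fintype κ'] (A : Matrix κ κ ℝ)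
    (B : Matrix κ' κ' ℝ) (x : κ → ℝ) (y : κ' → ℝ) :
    (A ⊗ₖ B) *ᵥ (fun p => x p.1 * y p.2) = fun p => (A *ᵥ x) p.1 * (B *ᵥ y) p.2 := by
  funext p
  simp only [Matrix.mulVec, dotProduct, Matrix.kroneckerMap_apply, Fintype.sum_prod_type]
  rw [Finset.sum_mul_sum]
  refine Finset.sum_congr rfl fun i _ => Finset.sum_congr rfl fun j _ => ?_
  ring

theorem dot_prod {κ κ' : Type} [Fintype κ] [Fintype κ'] (x x' : κ → ℝ) (y y' : κ' → ℝ) :
    (fun p : κ × κ' => x p.1 * y p.2) ⬝ᵥ (fun p => x' p.1 * y' p.2) = (x ⬝ᵥ x') * (y ⬝ᵥ y') := by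
  simp only [dotProduct, Fintype.sum_prod_type]
  rw [Finset.sum_mul_sum]
  refine Finset.sum_congr rfl fun i _ => Finset.sum_congr rfl fun j _ => ?_
  ring

theorem Rec.mul {g h : ℕ → (r → ℕ) → ℝ} (hg : Rec g) (hh : Rec h) :
    Rec fun a n => g a n * h a n := by
  obtain ⟨κ, _, _, M, u, φ, h0, h1, h2, h3, h4, h5⟩ := hg
  obtain ⟨κ', _, _, M', u', φ', h0', h1', h2', h3', h4', h5'⟩ := hh
  refine ⟨κ × κ', inferInstance, inferInstance, fun n => M n ⊗ₖ M' n,
    fun a p => u a p.1 * u' a p.2, fun p => φ p.1 * φ' p.2, ?_, ?_, ?_, ?_, ?_, ?_⟩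
  · simp only [h0, h0']
    exact one_kronecker_one
  · intro m n
    rw [← mul_kronecker_mul, h1, h1']
  · rintro m ⟨i, i'⟩ ⟨j, j'⟩
    exact (h2 m i j).mul (h2' m i' j')
  · rintro ⟨i, i'⟩
    exact (h3 i).mul (h3' i')
  · rintro ⟨i, i'⟩
    exact (h4 i).mul (h4' i')
  · intro a n
    rw [kron_mulVec, dot_prod, h5, h5']

/-- Polynomials are recognizable. -/
theorem rec_poly {f : (Unit ⊕ r → ℕ) → ℤ} (h : IsPoly f) :
    Rec fun a (n : r → ℕ) => (f (Sum.elim (fun _ => a) n) : ℝ) := by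
  induction h with
  | proj i =>
    rcases i with _ | j
    · simpa using Rec.par (r := r) (PR.nat Primrec.id)
    · simpa using Rec.coord j
  | const c => exact Rec.par (PR.int c)
  | sub _ _ ih1 ih2 =>
    have := ih1.sub ih2
    simpa using this
  | mul _ _ ih1 ih2 =>
    have := ih1.mul ih2
    simpa using this

/-- Polynomials grow at most exponentially. -/
theorem bound_poly {f : (Unit ⊕ r → ℕ) → ℤ} (h : IsPoly f) :
    ∃ (b : ℕ) (K : ℕ → ℕ), Primrec K ∧
      ∀ a (n : r → ℕ), |f (Sum.elim (fun _ => a) n)| ≤ (K a : ℤ) * ((b : ℤ) + 1) ^ len n := by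
  induction h with
  | proj i =>
    rcases i with _ | j
    · exact ⟨0, id, Primrec.id, fun a n => by simp⟩
    · refine ⟨1, fun _ => 1, Primrec.const 1, fun a n => ?_⟩
      simp only [Sum.elim_inr, Nat.abs_cast, Nat.cast_one, one_mul]
      have h1 : n j < 2 ^ n j := Nat.lt_two_pow_self
      have h2 : 2 ^ n j ≤ 2 ^ len n := Nat.pow_le_pow_right (by omega) (Sys.le_len n j)
      have h3 : n j ≤ 2 ^ len n := by omega
      have : ((n j : ℕ) : ℤ) ≤ ((2 ^ len n : ℕ) : ℤ) := by exact_mod_cast h3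
      push_cast at this
      norm_num
      exact this
  | const c =>
    refine ⟨0, fun _ => c.natAbs, Primrec.const _, fun a n => ?_⟩
    simp
  | @sub f g _ _ ih1 ih2 =>
    obtain ⟨b, K, hK, h1⟩ := ih1
    obtain ⟨b', K', hK', h1'⟩ := ih2
    refine ⟨b + b' , fun a => K a + K' a, Primrec.nat_add.comp hK hK', fun a n => ?_⟩
    have e1 : ((b : ℤ) + 1) ^ len n ≤ ((b + b' : ℕ) + 1) ^ len n :=
      pow_le_pow_left₀ (by positivity) (by push_cast; linarith [Int.natCast_nonneg b']) _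
    have e2 : ((b' : ℤ) + 1) ^ len n ≤ ((b + b' : ℕ) + 1) ^ len n :=
      pow_le_pow_left₀ (by positivity) (by push_cast; linarith [Int.natCast_nonneg b]) _
    have k1 := h1 a n
    have k2 := h1' a n
    have k3 := abs_sub (f (Sum.elim (fun _ => a) n)) (g (Sum.elim (fun _ => a) n))
    have m1 := mul_le_mul_of_nonneg_left e1 (Int.natCast_nonneg (K a))
    have m2 := mul_le_mul_of_nonneg_left e2 (Int.natCast_nonneg (K' a))
    push_cast at *
    nlinarith
  | @mul f g _ _ ih1 ih2 =>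
    obtain ⟨b, K, hK, h1⟩ := ih1
    obtain ⟨b', K', hK', h1'⟩ := ih2
    refine ⟨b * b' + b + b', fun a => K a * K' a, Primrec.nat_mul.comp hK hK', fun a n => ?_⟩
    rw [abs_mul]
    have e : (((b * b' + b + b' : ℕ) : ℤ) + 1) ^ len n =
        ((b : ℤ) + 1) ^ len n * ((b' : ℤ) + 1) ^ len n := by
      rw [← mul_pow]
      push_cast
      ring
    rw [e]
    calc |f (Sum.elim (fun _ => a) n)| * |g (Sum.elim (fun _ => a) n)|
        ≤ ((K a : ℤ) * ((b : ℤ) + 1) ^ len n) * ((K' a : ℤ) * ((b' : ℤ) + 1) ^ len n) :=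
          mul_le_mul (h1 a n) (h1' a n) (abs_nonneg _) (by positivity)
      _ = _ := by push_cast; ring

/-- The weights attached to a polynomial. -/
theorem exists_weight {P : (Unit ⊕ r → ℕ) → ℤ} (hP : IsPoly P) :
    ∃ f : ℕ → (r → ℕ) → ℝ, Rec f ∧
      (∀ a, (¬ ∃ n, P (Sum.elim (fun _ => a) n) = 0) → ∀ n, |f a n| ≤ 1) ∧
      (∀ a, (∃ n, P (Sum.elim (fun _ => a) n) = 0) → ∃ (θ : ℝ) (N : ℕ) (n₀ : r → ℕ),
        1 < θ ∧ len n₀ = N ∧ f a n₀ = θ ∧
        ∀ n, |f a n| ≤ 1 ∨ (|f a n| ≤ θ ∧ N < len n) ∨ (f a n = θ ∧ len n = N)) := by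
  classical
  obtain ⟨b, K, hK, hbd⟩ := bound_poly hP
  let p : ℕ → (r → ℕ) → ℤ := fun a n => P (Sum.elim (fun _ => a) n)
  let ε : ℕ → ℝ := fun a => 1 / (((2 * (K a * K a) : ℕ) : ℝ) + 1)
  let β : ℝ := 1 / (((b * b + b + b : ℕ) : ℝ) + 1)
  let f : ℕ → (r → ℕ) → ℝ := fun a n => 1 - (-1) * (ε a * (β ^ len n * (1 - 2 * ((p a n : ℝ) * p a n))))
  have hε : ∀ a, 0 < ε a := fun a => by simp only [ε]; positivity
  have hβ : 0 < β := by simp only [β]; positivity
  have hβ1 : β ≤ 1 := by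
    simp only [β]
    rw [div_le_one (by positivity)]
    linarith [Nat.cast_nonneg (α := ℝ) (b * b + b + b)]
  have hrec : Rec f := by
    have h1 : Rec (fun a (n : r → ℕ) => ((p a n : ℤ) : ℝ)) := rec_poly hP
    have h2 : Rec (fun _ (_ : r → ℕ) => (1 : ℝ)) := Rec.par PR.one
    have h3 : Rec (fun _ (_ : r → ℕ) => (2 : ℝ)) := Rec.par (by simpa using PR.int 2)
    have h4 : Rec (fun _ (_ : r → ℕ) => (-1 : ℝ)) := Rec.par (by simpa using PR.int (-1))
    have h5 : Rec (fun a (_ : r → ℕ) => ε a) := Rec.par (PR.inv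
      (Primrec.nat_mul.comp (Primrec.const 2) (Primrec.nat_mul.comp hK hK)))
    have h6 : Rec (fun _ (n : r → ℕ) => β ^ len n) := Rec.geom _
    exact h2.sub (h4.mul (h5.mul (h6.mul (h2.sub (h3.mul (h1.mul h1))))))
  have hf : ∀ a n, f a n = 1 + ε a * β ^ len n * (1 - 2 * (p a n : ℝ) ^ 2) := by
    intro a n
    simp only [f]
    ring
  have hsmall : ∀ a n, |ε a * β ^ len n * (1 - 2 * (p a n : ℝ) ^ 2)| ≤ 1 := by
    intro a n
    have h1 : |(p a n : ℝ)| ≤ (K a : ℝ) * ((b : ℝ) + 1) ^ len n := by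
      have := hbd a n
      exact_mod_cast this
    have h2 : (p a n : ℝ) ^ 2 ≤ (K a : ℝ) ^ 2 * (((b : ℝ) + 1) ^ len n) ^ 2 := by
      rw [← mul_pow, ← sq_abs]
      exact pow_le_pow_left₀ (abs_nonneg _) h1 2
    have h3 : β ^ len n * ((((b : ℝ) + 1) ^ len n) ^ 2) = 1 := by
      have : β * ((b : ℝ) + 1) ^ 2 = 1 := by
        simp only [β]
        have h0 : (((b * b + b + b : ℕ) : ℝ) + 1) = ((b : ℝ) + 1) ^ 2 := by push_cast; ring
        rw [h0]
        field_simp
      rw [← pow_mul, mul_comm (len n) 2, pow_mul, ← mul_pow, this, one_pow]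
    have h4 : (0 : ℝ) < β ^ len n := by positivity
    have h5 : β ^ len n ≤ 1 := pow_le_one₀ hβ.le hβ1
    have h6 : ε a * (2 * ((K a : ℝ) * K a) + 1) = 1 := by
      simp only [ε]
      push_cast
      field_simp
    have h7 : β ^ len n * (p a n : ℝ) ^ 2 ≤ (K a : ℝ) ^ 2 := by
      calc β ^ len n * (p a n : ℝ) ^ 2 ≤ β ^ len n * ((K a : ℝ) ^ 2 * (((b : ℝ) + 1) ^ len n) ^ 2) :=
            mul_le_mul_of_nonneg_left h2 h4.le
        _ = (K a : ℝ) ^ 2 * (β ^ len n * ((((b : ℝ) + 1) ^ len n) ^ 2)) := by ring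
        _ = _ := by rw [h3, mul_one]
    have h8 : 0 ≤ β ^ len n * (p a n : ℝ) ^ 2 := by positivity
    rw [mul_assoc, abs_mul, abs_of_pos (hε a)]
    rw [← h6]
    refine mul_le_mul_of_nonneg_left ?_ (hε a).le
    rw [abs_le]
    constructor
    · nlinarith
    · nlinarith [sq_nonneg (K a : ℝ)]
  have hnz : ∀ a n, p a n ≠ 0 → |f a n| ≤ 1 := by
    intro a n h
    have h1 : (1 : ℝ) ≤ (p a n : ℝ) ^ 2 := by
      have : (1 : ℤ) ≤ (p a n) ^ 2 := by
        have : 0 < (p a n) ^ 2 := by positivity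
        omega
      exact_mod_cast this
    have h2 := abs_le.1 (hsmall a n)
    have h3 : 0 < ε a * β ^ len n := mul_pos (hε a) (by positivity)
    rw [hf, abs_le]
    constructor
    · linarith
    · nlinarith
  have hz : ∀ a n, p a n = 0 → f a n = 1 + ε a * β ^ len n := by
    intro a n h
    rw [hf, h]
    simp
  refine ⟨f, hrec, ?_, ?_⟩
  · intro a ha n
    exact hnz a n fun h => ha ⟨n, h⟩
  · intro a ha
    have hex : ∃ k, ∃ n, len n = k ∧ p a n = 0 := by
      obtain ⟨n, hn⟩ := ha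
      exact ⟨len n, n, rfl, hn⟩
    obtain ⟨n₀, h0, h00⟩ := Nat.find_spec hex
    have hmin : ∀ n, p a n = 0 → Nat.find hex ≤ len n := fun n hn =>
      Nat.find_min' hex ⟨n, rfl, hn⟩
    refine ⟨1 + ε a * β ^ Nat.find hex, Nat.find hex, n₀, ?_, h0, ?_, ?_⟩
    · have : 0 < ε a * β ^ Nat.find hex := mul_pos (hε a) (by positivity)
      linarith
    · rw [hz a n₀ h00, h0]
    · intro n
      by_cases hn : p a n = 0
      · right
        rcases (hmin n hn).eq_or_lt with h | h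
        · right
          exact ⟨by rw [hz a n hn, h], h.symm⟩
        · left
          refine ⟨?_, h⟩
          rw [hz a n hn, abs_of_pos (by have := hε a; positivity)]
          have : β ^ len n ≤ β ^ Nat.find hex := pow_le_pow_of_le_one hβ.le hβ1 h.le
          have := mul_le_mul_of_nonneg_left this (hε a).le
          linarith
      · exact Or.inl (hnz a n hn)

/-- The source of undecidability. -/
theorem exists_rep : ∃ (Z : ℕ → Prop) (r : Type) (_ : Fintype r) (_ : DecidableEq r)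
    (f : ℕ → (r → ℕ) → ℝ), ¬ ComputablePred Z ∧ REPred Z ∧ Rec f ∧
      (∀ a, ¬ Z a → ∀ n, |f a n| ≤ 1) ∧
      (∀ a, Z a → ∃ (θ : ℝ) (N : ℕ) (n₀ : r → ℕ), 1 < θ ∧ len n₀ = N ∧ f a n₀ = θ ∧
        ∀ n, |f a n| ≤ 1 ∨ (|f a n| ≤ θ ∧ N < len n) ∨ (f a n = θ ∧ len n = N)) := by
  classical
  let Z : ℕ → Prop := fun n => ((Nat.Partrec.Code.eval
    (Denumerable.ofNat Nat.Partrec.Code n)) 0).Dom
  have hre : REPred Z := by
    have h1 : Partrec fun n : ℕ => Nat.Partrec.Code.eval (Denumerable.ofNat Nat.Partrec.Code n) 0 :=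
      Nat.Partrec.Code.eval_part.comp (Computable.ofNat Nat.Partrec.Code) (Computable.const 0)
    exact h1.dom_re
  have hnc : ¬ ComputablePred Z := by
    intro h
    refine ComputablePred.halting_problem 0 ?_
    have : ManyOneReducible (fun c : Nat.Partrec.Code => (Nat.Partrec.Code.eval c 0).Dom) Z := by
      refine ⟨Encodable.encode, Computable.encode, ?_⟩
      intro c
      simp [Z, Denumerable.ofNat_encode]
    exact ComputablePred.computable_of_manyOneReducible this h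
  obtain ⟨r, _, p, hp⟩ := Pool.Agent.Helper844.Dio.finite_dummies
    (Pool.Agent.Helper844.Dio.dprm hre)
  obtain ⟨f, h1, h2, h3⟩ := exists_weight (r := r) p.2
  have key : ∀ a, Z a ↔ ∃ n : r → ℕ, p (Sum.elim (fun _ => a) n) = 0 := fun a => hp fun _ => a
  exact ⟨Z, r, inferInstance, inferInstance, f, hnc, hre, h1, fun a ha => h2 a (fun h => ha ((key a).2 h)),
    fun a ha => h3 a ((key a).1 ha)⟩

end Q222.VG
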