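import Pool.Agent.Q222.VG.Hull

/-!
# Vertex growth: the upper bound
-/

set_option autoImplicit false

namespace Q222.VG

open Set Pointwise

theorem dm_finite : Dm.Finite := by
  have h : Dm ⊆ range fun q : Fin 3 → SignType × Fin 3 =>
      (fun i => Pi.single (q i).2 ((q i).1 : ℝ) : Fin 3 → Fin 3 → ℝ) := by
    intro M hM
    have h1 : ∀ i, ∃ q : SignType × Fin 3, M i = Pi.single q.2 (q.1 : ℝ) := by
      intro i
      obtain ⟨s, j, hs, hj⟩ := hM i
      rcases hs with rfl | rfl | rfl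
      · exact ⟨(0, j), by simpa using hj⟩
      · exact ⟨(1, j), by simpa using hj⟩
      · exact ⟨(-1, j), by simpa using hj⟩
    choose q hq using h1
    exact ⟨q, funext fun i => (hq i).symm⟩
  exact (finite_range _).subset h

/-- the value of a bit -/
noncomputable def bv (b : Bool) : ℝ := if b then 1 else 0

theorem bv_or (b : Bool) : bv b = 0 ∨ bv b = 1 := by
  cases b <;> simp [bv]

/-- the length of a multi-index -/
def len {r : Type} [Fintype r] (n : r → ℕ) : ℕ := ∑ j, n j

theorem len_add {r : Type} [Fintype r] (m n : r → ℕ) : len (m + n) = len m + len n := by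
  simp [len, Finset.sum_add_distrib]

theorem len_single {r : Type} [Fintype r] [DecidableEq r] (j : r) :
    len (Pi.single j 1) = 1 := by
  simp [len]

theorem len_zero {r : Type} [Fintype r] : len (0 : r → ℕ) = 0 := by simp [len]

theorem len_eq_zero {r : Type} [Fintype r] {m : r → ℕ} (h : len m = 0) : m = 0 := by
  funext j
  have := Finset.sum_eq_zero_iff.1 h j (Finset.mem_univ j)
  exact this

theorem exists_pred {r : Type} [Fintype r] [DecidableEq r] {m : r → ℕ} {k : ℕ}
    (h : len m = k + 1) : ∃ (j : r) (n : r → ℕ), m = Pi.single j 1 + n ∧ len n = k := by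
  have h1 : m ≠ 0 := by
    rintro rfl
    rw [len_zero] at h
    omega
  obtain ⟨j, hj⟩ := Function.ne_iff.1 h1
  have h2 : m = Pi.single j 1 + fun i => if i = j then m j - 1 else m i := by
    funext i
    simp only [Pi.add_apply, Pi.single_apply]
    by_cases hi : i = j
    · subst hi
      simp only [if_true]
      have : m i ≠ 0 := hj
      omega
    · simp [hi]
  refine ⟨j, _, h2, ?_⟩
  have h3 := congrArg len h2
  rw [len_add, len_single, h] at h3
  omega

/-- A system: the elements of an algebra which make up the letters. -/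
structure Sys (r : Type) [Fintype r] [DecidableEq r] (A : Type) [Ring A] [Algebra ℝ A] where
  η : A
  s : A
  t : A
  M : (r → ℕ) → A
  δ : Matrix (Fin 3) (Fin 3) ℝ →ₐ[ℝ] A
  f : (r → ℕ) → ℝ
  ηη : η * η = η
  δη : ∀ C, δ C * η = η * δ C
  sη : s * η = s
  ηt : η * t = t
  MM : ∀ m n, M m * M n = M (m + n)
  M0s : M 0 * s = s
  tM0 : t * M 0 = t
  tMs : ∀ n, t * M n * s = f n • η
  ηM : ∀ n, η * M n = 0
  Mη : ∀ n, M n * η = 0
  tη : t * η = 0

variable {r : Type} [Fintype r] [DecidableEq r] {A : Type} [Ring A] [Algebra ℝ A]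

namespace Sys

variable (S : Sys r A)

/-- the letters -/
def L : Set A := {x | (∃ g ∈ Dm, x = S.η * S.δ g) ∨ (∃ b, x = S.s * S.δ (Cm (bv b))) ∨
  (∃ j, x = S.M (Pi.single j 1)) ∨ x = S.t}

/-- left ends -/
noncomputable def lft : Option ((r → ℕ) × Bool) → A
  | none => S.η
  | some (n, b) => S.M n * S.s * S.δ (Cm (bv b))

/-- right ends -/
def rgt : Option (r → ℕ) → A
  | none => S.η
  | some n => S.t * S.M n

/-- the cost of a left end -/
def cl : Option ((r → ℕ) × Bool) → ℕ
  | none => 0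
  | some (n, _) => len n + 1

/-- the cost of a right end -/
def cr : Option (r → ℕ) → ℕ
  | none => 0
  | some n => len n + 1

/-- the normal forms of length `k` -/
def F (k : ℕ) : Set A := {z | (∃ m, len m = k ∧ z = S.M m) ∨
  ∃ x y j g, cl x + cr y + j = k ∧ g ∈ Dm ∧ (j = 0 → g = 1) ∧ z = S.lft x * S.δ g * S.rgt y}

theorem ηδM (C : Matrix (Fin 3) (Fin 3) ℝ) (n : r → ℕ) : S.η * S.δ C * S.M n = 0 := by
  rw [← S.δη, mul_assoc, S.ηM, mul_zero]

theorem sδM (C : Matrix (Fin 3) (Fin 3) ℝ) (n : r → ℕ) : S.s * S.δ C * S.M n = 0 := by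
  rw [← S.sη, mul_assoc S.s, mul_assoc S.s, S.ηδM, mul_zero]

theorem sδη (C : Matrix (Fin 3) (Fin 3) ℝ) : S.s * S.δ C * S.η = S.s * S.δ C := by
  rw [mul_assoc, S.δη, ← mul_assoc, S.sη]

theorem ηδη (C : Matrix (Fin 3) (Fin 3) ℝ) : S.η * S.δ C * S.η = S.η * S.δ C := by
  rw [mul_assoc, S.δη, ← mul_assoc, S.ηη]

theorem lft_η (x : Option ((r → ℕ) × Bool)) : S.lft x * S.η = S.lft x := by
  rcases x with _ | ⟨n, b⟩
  · exact S.ηη
  · simp only [lft]
    rw [mul_assoc (S.M n), mul_assoc (S.M n), S.sδη]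

theorem η_rgt (y : Option (r → ℕ)) : S.η * S.rgt y = S.rgt y := by
  rcases y with _ | n
  · exact S.ηη
  · simp only [rgt]
    rw [← mul_assoc, S.ηt]

theorem zero_mem_F {k : ℕ} (hk : 1 ≤ k) : (0 : A) ∈ S.F k := by
  right
  refine ⟨none, none, k, 0, by simp [cl, cr], zero_mem_dm, by omega, by simp⟩

theorem L_sub_F : S.L ⊆ S.F 1 := by
  rintro x (⟨g, hg, rfl⟩ | ⟨b, rfl⟩ | ⟨j, rfl⟩ | rfl)
  · right
    exact ⟨none, none, 1, g, by simp [cl, cr], hg, by omega, by simp only [lft, rgt]; rw [S.ηδη]⟩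
  · right
    refine ⟨some (0, b), none, 0, 1, by simp [cl, cr, len_zero], one_mem_dm, fun _ => rfl, ?_⟩
    simp only [lft, rgt, map_one, mul_one]
    rw [S.M0s, S.sδη]
  · left
    exact ⟨_, len_single j, rfl⟩
  · right
    refine ⟨none, some 0, 0, 1, by simp [cl, cr, len_zero], one_mem_dm, fun _ => rfl, ?_⟩
    simp only [lft, rgt, map_one, mul_one]
    rw [S.tM0, S.ηt]

theorem step (hf : ∀ n, |S.f n| ≤ 1) {k : ℕ} (hk : 1 ≤ k) {l z : A} (hl : l ∈ S.L)
    (hz : z ∈ S.F k) : l * z ∈ convexHull ℝ (S.F (k + 1)) := by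
  have h0 : (0 : A) ∈ convexHull ℝ (S.F (k + 1)) := subset_convexHull ℝ _ (S.zero_mem_F (by omega))
  rcases hz with ⟨m, hm, rfl⟩ | ⟨x, y, j, g, hk2, hg, hj, rfl⟩
  · rcases hl with ⟨h, hh, rfl⟩ | ⟨b, rfl⟩ | ⟨i, rfl⟩ | rfl
    · rw [S.ηδM]; exact h0
    · rw [S.sδM]; exact h0
    · refine subset_convexHull ℝ _ (Or.inl ⟨_, ?_, S.MM _ _⟩)
      rw [len_add, len_single, hm, add_comm]
    · refine subset_convexHull ℝ _ (Or.inr ⟨none, some m, 0, 1, ?_, one_mem_dm, fun _ => rfl, ?_⟩)
      · simp [cl, cr, hm]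
      · simp only [lft, rgt, map_one, mul_one]
        rw [← mul_assoc, S.ηt]
  · rcases x with _ | ⟨n, b'⟩
    · rcases hl with ⟨h, hh, rfl⟩ | ⟨b, rfl⟩ | ⟨i, rfl⟩ | rfl
      · refine subset_convexHull ℝ _ (Or.inr ⟨none, y, j + 1, h * g, ?_, mul_mem_dm hh hg,
          by omega, ?_⟩)
        · omega
        · simp only [lft, map_mul]
          rw [← mul_assoc, ← mul_assoc, S.ηδη, mul_assoc S.η]
      · refine subset_convexHull ℝ _ (Or.inr ⟨some (0, b), y, j, g, ?_, hg, hj, ?_⟩)
        · simp only [cl, len_zero] at hk2 ⊢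
          omega
        · simp only [lft]
          rw [S.M0s, ← mul_assoc, ← mul_assoc, S.sδη]
      · simp only [lft]
        rw [← mul_assoc, ← mul_assoc, S.Mη, zero_mul, zero_mul]
        exact h0
      · simp only [lft]
        rw [← mul_assoc, ← mul_assoc, S.tη, zero_mul, zero_mul]
        exact h0
    · rcases hl with ⟨h, hh, rfl⟩ | ⟨b, rfl⟩ | ⟨i, rfl⟩ | rfl
      · simp only [lft]
        have : S.η * S.δ h * (S.M n * S.s * S.δ (Cm (bv b')) * S.δ g * S.rgt y) = 0 := by
          simp only [← mul_assoc]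
          rw [S.ηδM]
          simp
        rw [this]
        exact h0
      · simp only [lft]
        have : S.s * S.δ (Cm (bv b)) * (S.M n * S.s * S.δ (Cm (bv b')) * S.δ g * S.rgt y) = 0 := by
          simp only [← mul_assoc]
          rw [S.sδM]
          simp
        rw [this]
        exact h0
      · refine subset_convexHull ℝ _ (Or.inr ⟨some (Pi.single i 1 + n, b'), y, j, g, ?_, hg, hj, ?_⟩)
        · simp only [cl, len_add, len_single] at hk2 ⊢
          omega
        · simp only [lft]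
          rw [← S.MM]
          simp only [← mul_assoc]
      · simp only [lft]
        have e : S.t * (S.M n * S.s * S.δ (Cm (bv b')) * S.δ g * S.rgt y) =
            (LinearMap.mulLeftRight ℝ (S.η, S.rgt y) ∘ₗ S.δ.toLinearMap)
              (S.f n • (Cm (bv b') * g)) := by
          simp only [← mul_assoc]
          rw [S.tMs]
          simp [mul_assoc]
        rw [e]
        have h2 := mem_image_of_mem (LinearMap.mulLeftRight ℝ (S.η, S.rgt y) ∘ₗ S.δ.toLinearMap)
          (cm_mul_dm_hull (bv_or b') (hf n) hg)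
        rw [LinearMap.image_convexHull] at h2
        refine convexHull_mono ?_ h2
        rintro _ ⟨g', hg', rfl⟩
        right
        refine ⟨none, y, k + 1 - cr y, g', ?_, hg', ?_, ?_⟩
        · simp only [cl] at hk2 ⊢
          omega
        · simp only [cl] at hk2
          omega
        · simp [lft]

theorem pow_sub (hf : ∀ n, |S.f n| ≤ 1) (k : ℕ) :
    S.L ^ (k + 1) ⊆ convexHull ℝ (S.F (k + 1)) := by
  induction k with
  | zero => rw [zero_add, pow_one]; exact S.L_sub_F.trans (subset_convexHull ℝ _)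
  | succ k ih =>
    rw [pow_succ']
    rintro _ ⟨l, hl, z, hz, rfl⟩
    have h2 := mem_image_of_mem (LinearMap.mulLeft ℝ l) (ih hz)
    rw [LinearMap.image_convexHull] at h2
    refine convexHull_min ?_ (convex_convexHull ℝ _) h2
    rintro _ ⟨y, hy, rfl⟩
    exact S.step hf (by omega) hl hy

/-! ### The normal forms are products -/

theorem M_mem (k : ℕ) : ∀ m : r → ℕ, len m = k + 1 → S.M m ∈ S.L ^ (k + 1) := by
  induction k with
  | zero =>
    intro m hm
    obtain ⟨j, n, rfl, hn⟩ := exists_pred hm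
    rw [len_eq_zero hn, add_zero, zero_add, pow_one]
    exact Or.inr (Or.inr (Or.inl ⟨j, rfl⟩))
  | succ k ih =>
    intro m hm
    obtain ⟨j, n, rfl, hn⟩ := exists_pred hm
    rw [← S.MM, pow_succ']
    exact mul_mem_mul (Or.inr (Or.inr (Or.inl ⟨j, rfl⟩))) (ih n hn)

theorem M_mul_mem (m : r → ℕ) {l : ℕ} {y : A} (hy : y ∈ S.L ^ l) (h0 : S.M 0 * y = y) :
    S.M m * y ∈ S.L ^ (len m + l) := by
  rcases Nat.eq_zero_or_pos (len m) with h | h
  · rw [len_eq_zero h, h0, len_zero, zero_add]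
    exact hy
  · rw [pow_add]
    refine mul_mem_mul ?_ hy
    obtain ⟨k, hk⟩ := Nat.exists_eq_succ_of_ne_zero (by omega : len m ≠ 0)
    rw [hk]
    exact S.M_mem k m hk

theorem mul_M_mem (m : r → ℕ) {l : ℕ} {y : A} (hy : y ∈ S.L ^ l) (h0 : y * S.M 0 = y) :
    y * S.M m ∈ S.L ^ (l + len m) := by
  rcases Nat.eq_zero_or_pos (len m) with h | h
  · rw [len_eq_zero h, h0, len_zero, add_zero]
    exact hy
  · rw [pow_add]
    refine mul_mem_mul hy ?_
    obtain ⟨k, hk⟩ := Nat.exists_eq_succ_of_ne_zero (by omega : len m ≠ 0)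
    rw [hk]
    exact S.M_mem k m hk

theorem lft_mem (n : r → ℕ) (b : Bool) : S.lft (some (n, b)) ∈ S.L ^ (len n + 1) := by
  simp only [lft]
  rw [mul_assoc]
  refine S.M_mul_mem n ?_ ?_
  · rw [pow_one]
    exact Or.inr (Or.inl ⟨b, rfl⟩)
  · rw [← mul_assoc, S.M0s]

theorem rgt_mem (n : r → ℕ) : S.rgt (some n) ∈ S.L ^ (len n + 1) := by
  simp only [rgt]
  rw [add_comm]
  refine S.mul_M_mem n ?_ S.tM0
  rw [pow_one]
  exact Or.inr (Or.inr (Or.inr rfl))

theorem D_mem {g : Matrix (Fin 3) (Fin 3) ℝ} (hg : g ∈ Dm) (k : ℕ) :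
    S.η * S.δ g ∈ S.L ^ (k + 1) := by
  induction k with
  | zero => rw [zero_add, pow_one]; exact Or.inl ⟨g, hg, rfl⟩
  | succ k ih =>
    have : S.η * S.δ g = (S.η * S.δ 1) * (S.η * S.δ g) := by
      simp only [map_one, mul_one]
      rw [← mul_assoc, S.ηη]
    rw [this, pow_succ']
    exact mul_mem_mul (Or.inl ⟨1, one_mem_dm, rfl⟩) ih

theorem F_sub {k : ℕ} (hk : 1 ≤ k) : S.F k ⊆ S.L ^ k := by
  rintro z (⟨m, hm, rfl⟩ | ⟨x, y, j, g, hk2, hg, hj, rfl⟩)
  · obtain ⟨l, rfl⟩ := Nat.exists_eq_succ_of_ne_zero (by omega : k ≠ 0)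
    exact S.M_mem l m hm
  · rcases Nat.eq_zero_or_pos j with h | h
    · rw [hj h, map_one, mul_one]
      rcases x with _ | ⟨n, b⟩ <;> rcases y with _ | m
      · simp only [cl, cr] at hk2
        omega
      · have : S.lft none * S.rgt (some m) = S.rgt (some m) := S.η_rgt _
        rw [this]
        simp only [cl, cr] at hk2
        rw [← hk2, h]
        simpa using S.rgt_mem m
      · have : S.lft (some (n, b)) * S.rgt none = S.lft (some (n, b)) := S.lft_η _
        rw [this]
        simp only [cl, cr] at hk2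
        rw [← hk2, h]
        simpa using S.lft_mem n b
      · simp only [cl, cr] at hk2
        rw [← hk2, h, add_zero, pow_add]
        exact mul_mem_mul (S.lft_mem n b) (S.rgt_mem m)
    · obtain ⟨i, rfl⟩ := Nat.exists_eq_succ_of_ne_zero (by omega : j ≠ 0)
      have hD := S.D_mem hg i
      rcases x with _ | ⟨n, b⟩ <;> rcases y with _ | m
      · have : S.lft none * S.δ g * S.rgt none = S.η * S.δ g := S.ηδη g
        rw [this]
        simp only [cl, cr, zero_add] at hk2
        rw [← hk2]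
        exact hD
      · simp only [cl, cr] at hk2
        have e : k = (i + 1) + (len m + 1) := by omega
        rw [e, pow_add]
        exact mul_mem_mul hD (S.rgt_mem m)
      · simp only [cl, cr] at hk2
        have e : k = (len n + 1) + (i + 1) := by omega
        have e2 : S.lft (some (n, b)) * S.δ g * S.rgt none = S.lft (some (n, b)) * (S.η * S.δ g) := by
          simp only [rgt]
          rw [mul_assoc, S.δη]
        rw [e2, e, pow_add]
        exact mul_mem_mul (S.lft_mem n b) hD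
      · simp only [cl, cr] at hk2
        have e : k = (len n + 1) + (i + 1) + (len m + 1) := by omega
        have e2 : S.lft (some (n, b)) * S.δ g * S.rgt (some m) =
            S.lft (some (n, b)) * (S.η * S.δ g) * S.rgt (some m) := by
          rw [← mul_assoc, S.lft_η]
        rw [e2, e, pow_add, pow_add]
        exact mul_mem_mul (mul_mem_mul (S.lft_mem n b) hD) (S.rgt_mem m)

/-! ### Counting -/

theorem le_len (m : r → ℕ) (i : r) : m i ≤ len m :=
  Finset.single_le_sum (f := m) (fun _ _ => Nat.zero_le _) (Finset.mem_univ i)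

theorem F_card (k : ℕ) : ∃ Y : Set A, S.F k ⊆ Y ∧ Y.Finite ∧
    Y.ncard ≤ (6 * Nat.card Dm + 1) * (k + 1) ^ (2 * Fintype.card r) := by
  classical
  have := dm_finite.to_subtype
  let T := (r → Fin (k + 1)) ⊕ (Option ((r → Fin (k + 1)) × Bool) × Option (r → Fin (k + 1)) × Dm)
  let φ : T → A := fun q => match q with
    | Sum.inl m => S.M fun i => m i
    | Sum.inr (x, y, g) => S.lft (x.map fun q => (fun i => (q.1 i : ℕ), q.2)) * S.δ g *
        S.rgt (y.map fun m i => (m i : ℕ))
  have hfin : ∀ m : r → ℕ, len m ≤ k → ∃ m' : r → Fin (k + 1), (fun i => (m' i : ℕ)) = m := by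
    intro m hm
    exact ⟨fun i => ⟨m i, Nat.lt_succ_of_le ((le_len m i).trans hm)⟩, rfl⟩
  refine ⟨range φ, ?_, finite_range φ, ?_⟩
  · rintro z (⟨m, hm, rfl⟩ | ⟨x, y, j, g, hk2, hg, hj, rfl⟩)
    · obtain ⟨m', hm'⟩ := hfin m hm.le
      exact ⟨Sum.inl m', by simp only [φ]; rw [hm']⟩
    · have h1 : ∃ x' : Option ((r → Fin (k + 1)) × Bool),
          x'.map (fun q => (fun i => (q.1 i : ℕ), q.2)) = x := by
        rcases x with _ | ⟨n, b⟩
        · exact ⟨none, rfl⟩
        · simp only [cl] at hk2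
          obtain ⟨n', hn'⟩ := hfin n (by omega)
          exact ⟨some (n', b), by simp only [Option.map_some]; rw [hn']⟩
      have h2 : ∃ y' : Option (r → Fin (k + 1)), y'.map (fun m i => (m i : ℕ)) = y := by
        rcases y with _ | n
        · exact ⟨none, rfl⟩
        · simp only [cr] at hk2
          obtain ⟨n', hn'⟩ := hfin n (by omega)
          exact ⟨some n', by simp only [Option.map_some]; rw [hn']⟩
      obtain ⟨x', hx'⟩ := h1
      obtain ⟨y', hy'⟩ := h2
      exact ⟨Sum.inr (x', y', ⟨g, hg⟩), by simp only [φ]; rw [hx', hy']⟩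
  · have h1 : (range φ).ncard ≤ Nat.card T := by
      rw [← image_univ]
      refine (ncard_image_le (s := (univ : Set T)) (f := φ) (finite_univ)).trans ?_
      rw [ncard_univ]
    refine h1.trans ?_
    have h2 : Nat.card T = (k + 1) ^ Fintype.card r +
        ((k + 1) ^ Fintype.card r * 2 + 1) * (((k + 1) ^ Fintype.card r + 1) * Nat.card Dm) := by
      simp only [T]
      rw [Nat.card_sum, Nat.card_prod, Nat.card_prod]
      simp [Nat.card_eq_fintype_card, Fintype.card_option]
    rw [h2, mul_comm 2, pow_mul]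
    set N := (k + 1) ^ Fintype.card r with hN
    have hN1 : 1 ≤ N := Nat.one_le_pow _ _ (by omega)
    have hN2 : N ≤ N ^ 2 := by nlinarith
    have h3 : (N * 2 + 1) * ((N + 1) * Nat.card Dm) ≤ 6 * Nat.card Dm * N ^ 2 := by
      have : (N * 2 + 1) * (N + 1) ≤ 6 * N ^ 2 := by nlinarith
      calc (N * 2 + 1) * ((N + 1) * Nat.card Dm) = ((N * 2 + 1) * (N + 1)) * Nat.card Dm := by ring
        _ ≤ (6 * N ^ 2) * Nat.card Dm := Nat.mul_le_mul_right _ this
        _ = _ := by ring
    nlinarith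

/-- Without a value of absolute value larger than one there are few vertices. -/
theorem upper (hf : ∀ n, |S.f n| ≤ 1) : ∃ C : ℕ, ∀ k, 1 ≤ k → ∃ Y : Set A, Y.Finite ∧
    Y.ncard ≤ C * k ^ (2 * Fintype.card r) ∧ Y ⊆ S.L ^ k ∧ S.L ^ k ⊆ convexHull ℝ Y := by
  refine ⟨(6 * Nat.card Dm + 1) * 2 ^ (2 * Fintype.card r), fun k hk => ?_⟩
  obtain ⟨Y, hY, hfin, hcard⟩ := S.F_card k
  refine ⟨S.F k, hfin.subset hY, ?_, S.F_sub hk, ?_⟩
  · refine (ncard_le_ncard hY hfin).trans (hcard.trans ?_)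
    rw [mul_assoc, ← mul_pow]
    exact Nat.mul_le_mul_left _ (Nat.pow_le_pow_left (by omega) _)
  · obtain ⟨l, rfl⟩ := Nat.exists_eq_succ_of_ne_zero (by omega : k ≠ 0)
    exact S.pow_sub hf l

end Sys

end Q222.VG
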